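import Pool.Agent.Work.MP_ede3c6_co.Embed

-- merged part: Pool.Agent.Work.MP_ede3c6_co.V.A1
section
/-! Hamming distance, the reflected Gray code, labels and a greedy colouring. -/

set_option autoImplicit false

namespace Pool.Agent.Work.MP_ede3c6_co.Vol

open Finset

/-- vertices of the cube on a set of coordinates -/
abbrev V (ι : Type) : Type := ι → ZMod 2

section Basic
variable {ι : Type} [Fintype ι] [DecidableEq ι]

/-- unit vector -/
def e (c : ι) : V ι := Pi.single c 1

/-- parity -/
def par (x : V ι) : ZMod 2 := ∑ i, x i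

omit [Fintype ι] in
theorem e_apply (c i : ι) : e c i = if i = c then 1 else 0 := by simp [e, Pi.single_apply]

omit [Fintype ι] [DecidableEq ι] in
theorem vv (x : V ι) : x + x = 0 := funext fun _ => CharTwo.add_self_eq_zero _

omit [DecidableEq ι] in
theorem hd_ge {x y : V ι} (A : Finset ι) (h : ∀ i ∈ A, x i ≠ y i) : A.card ≤ hammingDist x y :=
  card_le_card fun i hi => mem_filter.2 ⟨mem_univ _, h i hi⟩

omit [DecidableEq ι] in
theorem hd_le {x y : V ι} (A : Finset ι) (h : ∀ i, i ∉ A → x i = y i) :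
    hammingDist x y ≤ A.card :=
  card_le_card fun i hi => by_contra fun k => (mem_filter.1 hi).2 (h i k)

omit [DecidableEq ι] in
theorem hd_par (x y : V ι) : (hammingDist x y : ZMod 2) = par x + par y := by
  unfold hammingDist par
  rw [card_filter, Nat.cast_sum, ← sum_add_distrib]
  refine sum_congr rfl fun i _ => ?_
  have k : ∀ a b : ZMod 2, (((if a ≠ b then 1 else 0 : ℕ)) : ZMod 2) = a + b := by decide
  exact k _ _

omit [DecidableEq ι] in
theorem hd_even {x y : V ι} (h : par x = par y) : hammingDist x y % 2 = 0 := by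
  have := hd_par x y
  rw [h, CharTwo.add_self_eq_zero] at this
  exact Nat.mod_eq_zero_of_dvd ((ZMod.natCast_eq_zero_iff _ _).1 this)

omit [DecidableEq ι] in
theorem par_add (x y : V ι) : par (x + y) = par x + par y := sum_add_distrib

theorem par_e (c : ι) : par (e c) = 1 := by simp [par, e_apply]

omit [DecidableEq ι] in
theorem hd_add (x y u : V ι) : hammingDist (x + u) (y + u) = hammingDist x y := by
  simp [hammingDist]

omit [DecidableEq ι] in
theorem hd_add' (x y u : V ι) : hammingDist (u + x) (u + y) = hammingDist x y := by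
  simp [hammingDist]

theorem hd_e (x : V ι) (c : ι) : hammingDist x (x + e c) = 1 := (hd_one_iff _ _).2 ⟨c, rfl⟩

theorem hd_two {x y : V ι} (h : hammingDist x y = 2) : ∃ k l, k ≠ l ∧ y = x + e k + e l := by
  obtain ⟨k, l, hkl, hs⟩ := card_eq_two.1 h
  refine ⟨k, l, hkl, funext fun i => ?_⟩
  have : x i ≠ y i ↔ i = k ∨ i = l := by
    have := congrArg (i ∈ ·) hs
    simpa using this
  simp only [Pi.add_apply, e_apply]
  by_cases a : i = k
  · have b : i ≠ l := a ▸ hkl
    rw [if_pos a, if_neg b, add_zero]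
    exact z2_ne' (this.2 (Or.inl a))
  · by_cases b : i = l
    · rw [if_neg a, if_pos b, add_zero]
      exact z2_ne' (this.2 (Or.inr b))
    · rw [if_neg a, if_neg b, add_zero, add_zero]
      exact (by_contra fun k => (this.1 k).elim a b : x i = y i).symm

theorem hd_add_e (x y : V ι) (c : ι) : hammingDist x (y + e c) ≤ hammingDist x y + 1 :=
  (hammingDist_triangle x y _).trans (by rw [hd_e])

omit [Fintype ι] in
theorem e_inj {c d : ι} (h : (e c : V ι) = e d) : c = d := by
  by_contra k
  have := congrFun h c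
  simp [e_apply, k] at this

/-- Geodesics. -/
theorem geo (a b : V ι) : ∃ G : ℕ → V ι, G 0 = a ∧ G (hammingDist a b) = b ∧
    ∀ i j, i ≤ j → j ≤ hammingDist a b → hammingDist (G i) (G j) = j - i := by
  obtain ⟨M, hM⟩ : ∃ M, hammingDist a b = M := ⟨_, rfl⟩
  induction M generalizing a with
  | zero => exact ⟨fun _ => a, rfl, hammingDist_eq_zero.1 hM, fun i j _ _ => by simp; omega⟩
  | succ M ih =>
    obtain ⟨c, hc⟩ : ∃ c, a c ≠ b c := by
      by_contra k
      push Not at k
      rw [funext k, hammingDist_self] at hM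
      omega
    have h1 : hammingDist (a + e c) b = M := by
      have := hd_away b (a + e c) a c (fun i hi => by simp [e_apply, hi]) (by simp [e_apply])
        (by simpa [e_apply] using z2_ne' hc)
      rw [hammingDist_comm b, hammingDist_comm b] at this
      omega
    obtain ⟨G, g0, g1, g2⟩ := ih (a + e c) h1
    rw [h1] at g1 g2
    rw [hM]
    refine ⟨fun t => if t = 0 then a else G (t - 1), rfl, by simpa using g1, fun i j k1 k2 => ?_⟩
    by_cases p : i = 0
    · by_cases q : j = 0
      · simp [p, q]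
      · simp only [p, q, if_true, if_false]
        have a1 := g2 0 (j - 1) (by omega) (by omega)
        have a2 := g2 (j - 1) M (by omega) le_rfl
        have a3 := hammingDist_triangle a (G (j - 1)) b
        have a4 := hammingDist_triangle a (a + e c) (G (j - 1))
        rw [hd_e] at a4
        rw [g0] at a1
        rw [g1] at a2
        omega
    · have q : j ≠ 0 := by omega
      simp only [p, q, if_false]
      rw [g2 _ _ (by omega) (by omega)]
      omega

end Basic

theorem greedy (r : ℕ → ℕ) (E : ℕ → ℕ → Prop) (s : Finset ℕ) (A : ℕ)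
    (h0 : ∀ a b, E a b → E b a) (h1 : ∀ a ∈ s, ∀ b ∈ s, E a b → r a ≠ r b)
    (h2 : ∀ a ∈ s, ∀ t ⊆ s, (∀ b ∈ t, E a b ∧ r a < r b) → t.card ≤ A) :
    ∃ χ : ℕ → Fin (A + 1), ∀ a ∈ s, ∀ b ∈ s, E a b → χ a ≠ χ b := by
  classical
  suffices H : ∀ t : Finset ℕ, t ⊆ s →
      ∃ χ : ℕ → Fin (A + 1), ∀ a ∈ t, ∀ b ∈ t, E a b → χ a ≠ χ b from H s Subset.rfl
  intro t
  induction t using Finset.induction_on_min_value r with
  | empty => exact fun _ => ⟨fun _ => 0, by simp⟩
  | insert a t ha hm ih =>
    intro hs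
    have ts : t ⊆ s := (subset_insert a t).trans hs
    have as : a ∈ s := hs (mem_insert_self a t)
    obtain ⟨χ, hχ⟩ := ih ts
    have c1 := h2 a as (t.filter (E a)) ((filter_subset _ _).trans ts) fun b hb => by
      obtain ⟨b1, b2⟩ := mem_filter.1 hb
      exact ⟨b2, lt_of_le_of_ne (hm b b1) (h1 a as b (ts b1) b2)⟩
    obtain ⟨c, -, hc⟩ := exists_mem_notMem_of_card_lt_card
      (s := (t.filter (E a)).image χ) (t := univ)
      (by have := card_image_le (s := t.filter (E a)) (f := χ); simp; omega)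
    have k : ∀ b ∈ t, E a b → c ≠ χ b := fun b hb q z =>
      hc (mem_image.2 ⟨b, mem_filter.2 ⟨hb, q⟩, z.symm⟩)
    have ne : ∀ b ∈ t, b ≠ a := fun b hb z => ha (z ▸ hb)
    refine ⟨Function.update χ a c, fun x hx y hy q => ?_⟩
    rcases mem_insert.1 hx with rfl | hx' <;> rcases mem_insert.1 hy with rfl | hy'
    · exact absurd rfl (h1 _ as _ as q)
    · rw [Function.update_self, Function.update_of_ne (ne y hy')]
      exact k y hy' q
    · rw [Function.update_self, Function.update_of_ne (ne x hx')]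
      exact (k x hx' (h0 _ _ q)).symm
    · rw [Function.update_of_ne (ne x hx'), Function.update_of_ne (ne y hy')]
      exact hχ x hx' y hy' q

/-- binary digits -/
def B (n i : ℕ) : ZMod 2 := ((n / 2 ^ i : ℕ) : ZMod 2)

theorem B_succ (n i : ℕ) : B n (i + 1) = B (n / 2) i := by
  unfold B
  rw [Nat.div_div_eq_div_mul, pow_succ']

theorem B_zero (n : ℕ) : B n 0 = n := by simp [B]

theorem B_top {n N : ℕ} (h : n < 2 ^ N) : B n N = 0 := by simp [B, Nat.div_eq_of_lt h]

theorem B_step (n : ℕ) : ∃ d, (∀ i < d, B n i = 1) ∧ B n d = 0 ∧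
    ∀ i, B (n + 1) i = B n i + if i ≤ d then 1 else 0 := by
  induction n using Nat.strong_induction_on with
  | _ n ih =>
    rcases Nat.even_or_odd' n with ⟨m, rfl | rfl⟩
    · refine ⟨0, by simp, ?_, fun i => ?_⟩
      · rw [B_zero, Nat.cast_mul]
        exact mul_eq_zero_of_left (by decide) _
      · cases i with
        | zero => simp [B_zero]
        | succ i => rw [B_succ, B_succ, show (2 * m + 1) / 2 = 2 * m / 2 by omega]; simp
    · obtain ⟨d, a1, a2, a3⟩ := ih m (by omega)
      have q : (2 * m + 1) / 2 = m := by omega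
      refine ⟨d + 1, fun i hi => ?_, by rw [B_succ, q, a2], fun i => ?_⟩
      · cases i with
        | zero =>
          rw [B_zero, Nat.cast_add, Nat.cast_mul, mul_eq_zero_of_left (by decide), zero_add,
            Nat.cast_one]
        | succ i => rw [B_succ, q, a1 i (by omega)]
      · cases i with
        | zero => simp [B_zero]
        | succ i =>
          rw [B_succ, B_succ, q, show (2 * m + 1 + 1) / 2 = m + 1 by omega, a3]
          simp

theorem B_inj {n m : ℕ} (h : ∀ i, B n i = B m i) : n = m := by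
  refine Nat.eq_of_testBit_eq fun i => ?_
  have := (ZMod.natCast_eq_natCast_iff' _ _ 2).1 (h i)
  rw [Nat.testBit_eq_decide_div_mod_eq, Nat.testBit_eq_decide_div_mod_eq, this]

/-- the direction of the step of the Gray code -/
noncomputable def dl (n : ℕ) : ℕ := (B_step n).choose

theorem dl_spec (n : ℕ) : (∀ i < dl n, B n i = 1) ∧ B n (dl n) = 0 ∧
    ∀ i, B (n + 1) i = B n i + if i ≤ dl n then 1 else 0 := (B_step n).choose_spec

/-- the Gray code -/
def G (n i : ℕ) : ZMod 2 := B n i + B n (i + 1)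

theorem dl_lt {n N : ℕ} (h : n + 1 < 2 ^ N) : dl n < N := by
  obtain ⟨-, a2, a3⟩ := dl_spec n
  have := a3 (dl n)
  rw [a2, if_pos le_rfl, zero_add] at this
  by_contra k
  have q : n + 1 < 2 ^ dl n := h.trans_le (Nat.pow_le_pow_right two_pos (not_lt.1 k))
  rw [B_top q] at this
  exact absurd this (by decide)

theorem G_step (n i : ℕ) : G (n + 1) i = G n i + if i = dl n then 1 else 0 := by
  obtain ⟨-, -, a3⟩ := dl_spec n
  unfold G
  rw [a3, a3]
  have t : (1 : ZMod 2) + 1 = 0 := by decide
  rcases lt_trichotomy i (dl n) with h | h | h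
  · rw [if_pos h.le, if_pos (show i + 1 ≤ dl n from h), if_neg h.ne]
    linear_combination t
  · rw [if_pos h.le, if_neg (by omega), if_pos h]
    ring
  · rw [if_neg (by omega), if_neg (by omega), if_neg h.ne']
    ring

theorem G_low {n i : ℕ} (h : i + 1 < dl n) : G n i = 0 := by
  obtain ⟨a1, -, -⟩ := dl_spec n
  unfold G
  rw [a1 i (Nat.lt_of_succ_lt h), a1 _ h]
  decide

theorem G_one {n i : ℕ} (h : i + 1 = dl n) : G n i = 1 := by
  obtain ⟨a1, a2, -⟩ := dl_spec n
  unfold G
  rw [a1 i (by omega), h, a2, add_zero]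

theorem dl_zero {n : ℕ} : dl n = 0 ↔ (n : ZMod 2) = 0 := by
  obtain ⟨a1, a2, -⟩ := dl_spec n
  rw [← B_zero]
  refine ⟨fun h => h ▸ a2, fun h => by_contra fun k => ?_⟩
  rw [a1 0 (Nat.pos_of_ne_zero k)] at h
  exact absurd h (by decide)

/-- the Gray code in the cube -/
def gr (N n : ℕ) : V (Fin N) := fun i => G n i

/-- unit vectors indexed by naturals -/
def en (N i : ℕ) : V (Fin N) := fun j => if (j : ℕ) = i then 1 else 0

theorem e_eq {N : ℕ} (i : Fin N) : e i = en N i := by
  funext j
  simp [e_apply, en, Fin.ext_iff]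

theorem gr_step (N n : ℕ) : gr N (n + 1) = gr N n + en N (dl n) := funext fun i => G_step n i

theorem gr_zero (N : ℕ) : gr N 0 = 0 := funext fun i => by simp [gr, G, B]

theorem par_gr {N n : ℕ} (h : n < 2 ^ N) : par (gr N n) = n := by
  have k : ∀ M, ∑ i ∈ range M, G n i = B n 0 + B n M := fun M => by
    induction M with
    | zero => simp [CharTwo.add_self_eq_zero]
    | succ M ih =>
      rw [sum_range_succ, ih, G]
      linear_combination CharTwo.add_self_eq_zero (B n M)
  unfold par gr
  rw [Fin.sum_univ_eq_sum_range (G n), k, B_top h, add_zero, B_zero]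

theorem gr_inj {N n m : ℕ} (hn : n < 2 ^ N) (hm : m < 2 ^ N) (h : gr N n = gr N m) : n = m := by
  have k : ∀ i, N ≤ i → B n i = B m i := fun i hi => by
    rw [B_top (hn.trans_le (Nat.pow_le_pow_right two_pos hi)),
      B_top (hm.trans_le (Nat.pow_le_pow_right two_pos hi))]
  have q : ∀ t i, N ≤ i + t → B n i = B m i := fun t => by
    induction t with
    | zero => exact k
    | succ t ih =>
      intro i hi
      by_cases a : i < N
      · have b : G n i = G m i := congrFun h ⟨i, a⟩
        unfold G at b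
        rw [ih (i + 1) (by omega)] at b
        exact add_right_cancel b
      · exact k i (not_lt.1 a)
  exact B_inj fun i => q N i (by omega)

end Pool.Agent.Work.MP_ede3c6_co.Vol
end

-- merged part: Pool.Agent.Work.MP_ede3c6_co.V.C1
section
/-! Leaves along a given path of spread three, and the layout of the spine. -/

set_option autoImplicit false

namespace Pool.Agent.Work.MP_ede3c6_co.Vol

open Finset

variable {κ : Type} [Fintype κ] [DecidableEq κ]

/-- embedding data in a cube with an arbitrary set of coordinates -/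
structure Dat (k : ℕ) (a : ℕ → ℕ) (x : ℕ → V κ) (y : ℕ → ℕ → V κ) : Prop where
  xx : ∀ i j, i < k → j < k → x i = x j → i = j
  xy : ∀ i j l, i < k → j < k → l < a j → x i ≠ y j l
  yy : ∀ i j l l', i < k → j < k → l < a i → l' < a j → y i l = y j l' → i = j ∧ l = l'
  st : ∀ i, i + 1 < k → hammingDist (x i) (x (i + 1)) = 1
  lf : ∀ i l, i < k → l < a i → hammingDist (x i) (y i l) = 1

omit [DecidableEq κ] in
theorem Dat.contained {k : ℕ} {a : ℕ → ℕ} {x : ℕ → V κ} {y : ℕ → ℕ → V κ} (h : Dat k a x y)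
    {n : ℕ} (hn : Fintype.card κ = n) : (cat k a).IsContained (cube n) := by
  obtain ⟨φ⟩ : Nonempty (Fin n ≃ κ) := Fintype.card_eq.1 (by simp [hn])
  have inj : ∀ u v : V κ, u ∘ φ = v ∘ φ → u = v := fun u v q => φ.surjective.injective_comp_right q
  exact (contained_iff k a n).2 ⟨fun i => x i ∘ φ, fun i l => y i l ∘ φ,
    fun i j p q r => h.xx i j p q (inj _ _ r), fun i j l p q r t => h.xy i j l p q r (inj _ _ t),
    fun i j l l' p q r t u => h.yy i j l l' p q r t (inj _ _ u),
    fun i p => by rw [hd_equiv, h.st i p], fun i l p q => by rw [hd_equiv, h.lf i l p q]⟩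

theorem dat_path {k : ℕ} {a : ℕ → ℕ} {x : ℕ → V κ} (X : ℕ → Finset κ) (u : ℕ → Prop)
    [DecidablePred u] (h1 : ∀ i, i + 1 < k → hammingDist (x i) (x (i + 1)) = 1)
    (h2 : ∀ i j, i < j → j < k → min (j - i) 3 ≤ hammingDist (x i) (x j))
    (hfit : ∀ i < k, deg k a i + (X i).card + (if 2 ≤ i ∧ u (i - 2) then 1 else 0) +
      (if u i then 0 else 1) ≤ Fintype.card κ) :
    ∃ y, Dat k a x y ∧ ∀ i l, i < k → l < a i → ∃ c, c ∉ X i ∧ y i l = x i + e c := by
  have hdir : ∀ i, ∃ s : Finset κ, s.card ≤ (if i + 1 < k then 1 else 0) ∧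
      ∀ c, i + 1 < k → x (i + 1) = x i + e c → c ∈ s := fun i => by
    by_cases hi : i + 1 < k
    · obtain ⟨c, hc⟩ := (hd_one_iff _ _).1 (h1 i hi)
      exact ⟨{c}, by simp [hi], fun d _ he => mem_singleton.2
        (e_inj (add_left_cancel (he.symm.trans hc)))⟩
    · exact ⟨∅, by simp, fun c h => absurd h hi⟩
  choose t ht1 ht2 using hdir
  have ht3 : ∀ i, (t i).card ≤ 1 := fun i => (ht1 i).trans (by split_ifs <;> omega)
  let F : ℕ → Finset κ := fun i => (t i ∪ (if 0 < i then t (i - 1) else ∅)) ∪ (X i ∪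
    ((if 2 ≤ i ∧ u (i - 2) then t (i - 2) else ∅) ∪ (if u i then ∅ else t (i + 1))))
  have hF : ∀ i, i < k → a i ≤ ((F i)ᶜ).card := fun i hi => by
    rw [card_compl]
    have c1 : (F i).card ≤ _ := (card_union_le _ _).trans (add_le_add (card_union_le _ _)
      ((card_union_le _ _).trans (add_le_add le_rfl (card_union_le _ _))))
    have c2 := ht1 i
    have c3 := ht3 (i - 1)
    have c4 := ht3 (i - 2)
    have c5 := ht3 (i + 1)
    have c6 := hfit i hi
    unfold deg at c6
    have c7 : (∅ : Finset κ).card = 0 := rfl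
    split_ifs at c1 c2 c6 <;> omega
  have hD : ∀ i, ∃ d : ℕ → V κ, i < k → (∀ l, l < a i → ∃ c, c ∉ F i ∧ d l = x i + e c) ∧
      ∀ l l', l < a i → l' < a i → d l = d l' → l = l' := fun i => by
    by_cases hi : i < k
    · obtain ⟨φ, hφ⟩ := Function.Embedding.exists_of_card_le_finset (α := Fin (a i))
        (s := (F i)ᶜ) (by simpa using hF i hi)
      refine ⟨fun l => if h : l < a i then x i + e (φ ⟨l, h⟩) else 0, fun _ =>
        ⟨fun l hl => ⟨φ ⟨l, hl⟩, mem_compl.1 (hφ ⟨_, rfl⟩), by simp [hl]⟩, fun l l' hl hl' h => ?_⟩⟩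
      simp only [hl, hl', dif_pos] at h
      simpa using φ.injective (e_inj (add_left_cancel h))
    · exact ⟨fun _ => 0, fun h => absurd h hi⟩
  choose y hy using hD
  have hy1 : ∀ i l, i < k → l < a i → hammingDist (x i) (y i l) = 1 := fun i l hi hl => by
    obtain ⟨c, -, hc⟩ := (hy i hi).1 l hl
    rw [hc, hd_e]
  have hlt : ∀ i j l l', i < j → j < k → l < a i → l' < a j → y i l ≠ y j l' := by
    intro i j l l' hij hj hl hl' z
    have d1 := hy1 i l (by omega) hl
    have d2 := hy1 j l' hj hl'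
    rw [← z, hammingDist_comm] at d2
    have d3 := hd_step (x i) _ _ d2
    have d4 := h2 i j hij hj
    obtain rfl : j = i + 2 := by
      by_contra hne
      rcases Nat.lt_or_ge (i + 1) j with h | h
      · omega
      · obtain rfl : j = i + 1 := by omega
        have := h1 i hj
        omega
    obtain ⟨c, hc1, hc2⟩ := (hy i (by omega)).1 l hl
    obtain ⟨c', hc1', hc2'⟩ := (hy (i + 2) hj).1 l' hl'
    obtain ⟨p, hp⟩ : ∃ p, x (i + 1) = x i + e p := (hd_one_iff _ _).1 (h1 i (by omega))
    obtain ⟨q, hq⟩ : ∃ q, x (i + 2) = x (i + 1) + e q := (hd_one_iff _ _).1 (h1 (i + 1) hj)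
    have hp' := ht2 i p (by omega) hp
    have hq' := ht2 (i + 1) q hj hq
    have hcp : c ≠ p := by
      rintro rfl
      exact hc1 (by simp [F, hp'])
    have hcq : c' ≠ q := by
      rintro rfl
      exact hc1' (by simp [F, hq'])
    have e' : (e c : V κ) = e p + e q + e c' := by
      rw [hc2, hc2', hq, hp] at z
      linear_combination z
    have hpq : p ≠ q := by
      rintro rfl
      rw [hq, hp, add_assoc, vv, add_zero, hammingDist_self] at d4
      omega
    obtain rfl : c' = p := by
      by_contra hne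
      have := congrFun e' p
      simp [e_apply, hcp.symm, hpq, Ne.symm hne] at this
    obtain rfl : c = q := by
      by_contra hne
      have := congrFun e' q
      simp [e_apply, hcq.symm, Ne.symm hne] at this
    by_cases hu : u i
    · exact hc1' (by simp [F, hu, hp'])
    · exact hc1 (by simp [F, hu, hq'])
  refine ⟨y, ⟨fun i j hi hj z => ?_, fun i j l hi hj hl z => ?_, fun i j l l' hi hj hl hl' z => ?_,
    h1, hy1⟩, fun i l hi hl => ?_⟩
  · rcases lt_trichotomy i j with h | h | h
    · have := h2 i j h hj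
      rw [z, hammingDist_self] at this
      omega
    · exact h
    · have := h2 j i h hi
      rw [z, hammingDist_self] at this
      omega
  · have d1 := hy1 j l hj hl
    obtain ⟨c, hc1, hc2⟩ := (hy j hj).1 l hl
    rw [← z] at d1 hc2
    rcases lt_trichotomy i j with h | h | h
    · have := h2 i j h hj
      rw [hammingDist_comm] at this
      obtain rfl : j = i + 1 := by omega
      have := ht2 i c hj (by rw [hc2, add_assoc, vv, add_zero])
      exact hc1 (by simp [F, this])
    · rw [h, hammingDist_self] at d1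
      omega
    · have := h2 j i h hi
      obtain rfl : i = j + 1 := by omega
      have := ht2 j c hi hc2
      exact hc1 (by simp [F, this])
  · rcases lt_trichotomy i j with h | h | h
    · exact absurd z (hlt i j l l' h hj hl hl')
    · subst h
      exact ⟨rfl, (hy i hi).2 l l' hl hl' z⟩
    · exact absurd z.symm (hlt j i l' l h hi hl' hl)
  · obtain ⟨c, hc1, hc2⟩ := (hy i hi).1 l hl
    exact ⟨c, fun z => hc1 (by simp [F, z]), hc2⟩

theorem fit_of_run {k : ℕ} {a : ℕ → ℕ} {n : ℕ} (hR : Run k a n) {i : ℕ} (hi : i < k) :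
    deg k a i + back k a n i + (if use k a n i ≠ 0 then 0 else 1) ≤ n := by
  obtain ⟨i0, j, e1, e2⟩ := back_inv k a n i
  have := hR i0 j (by omega)
  rw [use_eq]
  split_ifs <;> omega

/-- the number of vertices in a segment of the caterpillar -/
def vol (b : ℕ → ℕ) (s len : ℕ) : ℕ := ∑ j ∈ range len, (b (s + j) + 1)

theorem vol_add (b : ℕ → ℕ) (s p : ℕ) : vol b 0 (s + p) = vol b 0 s + vol b s p := by
  simp only [vol, sum_range_add, zero_add]

theorem vol_ge (b : ℕ → ℕ) (s p : ℕ) : p ≤ vol b s p := by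
  simp only [vol, sum_add_distrib, sum_const, card_range, smul_eq_mul, mul_one]
  omega

theorem vol_mono (b : ℕ → ℕ) {s p : ℕ} (h : s ≤ p) : vol b 0 s + (p - s) ≤ vol b 0 p := by
  have := vol_add b s (p - s)
  have := vol_ge b s (p - s)
  rw [Nat.add_sub_cancel' h] at *
  omega

/-- start of the segment of the spine which belongs to a vertex of the host path -/
def sg (b : ℕ → ℕ) (Q : Finset ℕ) (μ : ℕ) : ℕ → ℕ
  | 0 => 0
  | q + 1 => sg b Q μ q + 1 + 2 * if q ∈ Q then
      Nat.findGreatest (fun l => vol b (sg b Q μ q) (2 * l + 2) ≤ μ) μ else 0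

theorem layout (b : ℕ → ℕ) (Q : Finset ℕ) (μ L k : ℕ) (h1 : ∀ q ∈ Q, q + 4 ≤ L)
    (h2 : ∀ q ∈ Q, ∀ q' ∈ Q, q < q' → q + 4 ≤ q') (h3 : vol b 0 k ≤ (μ + 1) * Q.card) :
    ∃ σ ℓ : ℕ → ℕ, σ 0 = 0 ∧ (∀ q, σ (q + 1) = σ q + 1 + 2 * ℓ q) ∧ k ≤ σ L ∧
      ∀ q, ℓ q ≠ 0 → q ∈ Q ∧ vol b (σ q) (2 * ℓ q + 2) ≤ μ := by
  have st : ∀ q, sg b Q μ q + 1 ≤ sg b Q μ (q + 1) := fun q => by
    rw [sg]
    omega
  have mono : Monotone (sg b Q μ) := monotone_nat_of_le_succ fun q => (Nat.le_succ _).trans (st q)
  have key : ∀ T : Finset ℕ, T ⊆ Q → ∀ p, (∀ q ∈ T, q + 4 ≤ p) →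
      (μ + 1) * T.card ≤ vol b 0 (sg b Q μ p) := fun T => by
    induction T using Finset.induction_on_max with
    | empty => simp
    | insert q T hq ih =>
      intro hT p hp
      have q1 : q ∈ Q := hT (mem_insert_self _ _)
      have a1 := ih ((subset_insert _ _).trans hT) q fun r hr =>
        h2 r (hT (mem_insert_of_mem hr)) q q1 (hq r hr)
      have a2 := mono (hp q (mem_insert_self _ _))
      have a3 : sg b Q μ (q + 1) + 3 ≤ sg b Q μ (q + 4) := by
        have := st (q + 1)
        have := st (q + 1 + 1)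
        have : _ ≤ sg b Q μ (q + 4) := st (q + 1 + 1 + 1)
        omega
      rw [sg, if_pos q1] at a3
      have a4 := fun r => Nat.findGreatest_is_greatest
        (P := fun l => vol b (sg b Q μ q) (2 * l + 2) ≤ μ) (n := μ) (k := r)
      generalize Nat.findGreatest (fun l => vol b (sg b Q μ q) (2 * l + 2) ≤ μ) μ = l at a3 a4
      have a5 := vol_add b (sg b Q μ q) (2 * (l + 1) + 2)
      have a6 := vol_ge b (sg b Q μ q) (2 * (l + 1) + 2)
      have a7 := vol_mono b (show sg b Q μ q + (2 * (l + 1) + 2) ≤ sg b Q μ p by omega)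
      have a8 := a4 (l + 1) (by omega)
      rw [card_insert_of_notMem fun z => lt_irrefl _ (hq q z), mul_add_one]
      omega
  refine ⟨sg b Q μ, fun q => if q ∈ Q then
    Nat.findGreatest (fun l => vol b (sg b Q μ q) (2 * l + 2) ≤ μ) μ else 0, rfl, fun q => rfl, ?_,
    fun q hq => ?_⟩
  · by_contra z
    have := vol_mono b (not_le.1 z).le
    have := key Q Subset.rfl L h1
    omega
  · by_cases z : q ∈ Q
    · simp only [z, if_true] at hq ⊢
      exact ⟨trivial, Nat.findGreatest_of_ne_zero
        (P := fun l => vol b (sg b Q μ q) (2 * l + 2) ≤ μ) rfl hq⟩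
    · simp [z] at hq

end Pool.Agent.Work.MP_ede3c6_co.Vol
end
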