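import Pool.Agent.Work.MP_ede3c6_co.V.C1
import Mathlib

-- merged part: Pool.Agent.Work.MP_ede3c6_co.V.A2
section
/-! Labels, the code, and the colouring of the conflicts of the Gray code. -/

set_option autoImplicit false

namespace Pool.Agent.Work.MP_ede3c6_co.Vol

open Finset

variable {N : ℕ} {F : Type} [AddCommGroup F]

/-- distinct labels with distinct consecutive sums -/
structure Lab (s : V (Fin N) →+ F) : Prop where
  i1 : ∀ i j, i < N → j < N → s (en N i) = s (en N j) → i = j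
  i2 : ∀ i j, i + 1 < N → j + 1 < N →
    s (en N i + en N (i + 1)) = s (en N j + en N (j + 1)) → i = j

theorem exists_lab (hN : 1 ≤ N) : ∃ ρ, 2 ^ ρ ≤ 2 * N ∧ ρ ≠ 0 ∧
    ∃ s : V (Fin N) →+ GaloisField 2 ρ, Lab s := by
  refine ⟨Nat.log 2 N + 1, ?_, by omega, ?_⟩
  · rw [pow_succ']
    exact Nat.mul_le_mul_left 2 (Nat.pow_log_le_self 2 (by omega))
  obtain ⟨g, hg⟩ := IsCyclic.exists_ofOrder_eq_natCard (α := (GaloisField 2 (Nat.log 2 N + 1))ˣ)
  rw [Nat.card_units, GaloisField.card 2 _ (by omega)] at hg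
  have h1 := Nat.lt_pow_succ_log_self (b := 2) one_lt_two N
  have inj : ∀ i j, i < N → j < N → (g : GaloisField 2 (Nat.log 2 N + 1)) ^ i = g ^ j → i = j :=
    fun i j hi hj h => pow_injOn_Iio_orderOf (x := g) (by simp only [Set.mem_Iio]; omega)
      (by simp only [Set.mem_Iio]; omega) (Units.ext (by simpa using h))
  let s : V (Fin N) →+ GaloisField 2 (Nat.log 2 N + 1) :=
    AddMonoidHom.mk' (fun x => ∑ i, x i • (g : GaloisField 2 (Nat.log 2 N + 1)) ^ (i : ℕ))
      fun x y => by simp [add_smul, sum_add_distrib]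
  have hs : ∀ i, i < N → s (en N i) = (g : GaloisField 2 (Nat.log 2 N + 1)) ^ i := fun i hi => by
    change ∑ j : Fin N, en N i j • _ = _
    rw [sum_eq_single ⟨i, hi⟩ (fun j _ hj => by
      rw [en, if_neg fun k => hj (Fin.ext k), zero_smul]) (by simp)]
    simp [en]
  refine ⟨s, fun i j hi hj h => inj i j hi hj (by rwa [hs i hi, hs j hj] at h),
    fun i j hi hj h => inj i j (by omega) (by omega) ?_⟩
  rw [map_add, map_add, hs _ hi, hs _ hj, hs i (by omega), hs j (by omega), pow_succ, pow_succ,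
    ← mul_one_add, ← mul_one_add] at h
  refine mul_right_cancel₀ (fun k => ?_) h
  have := inj 0 1 (by omega) (by omega) (by
    rw [pow_zero, pow_one]
    exact CharTwo.add_eq_zero.1 k)
  omega

/-- same coset of the code -/
def eqv (s : V (Fin N) →+ F) (x y : V (Fin N)) : Prop := s x = s y ∧ par x = par y

variable {s : V (Fin N) →+ F}

theorem s_two (x : V (Fin N)) : s x + s x = 0 := by rw [← map_add, vv, map_zero]

theorem s_eq {x y : V (Fin N)} (h : s (x + y) = 0) : s x = s y := by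
  rw [map_add] at h
  rw [← add_zero (s x), ← s_two y, ← add_assoc, h, zero_add]

theorem dist4 (hs : Lab s) {x y : V (Fin N)} (h : eqv s x y) (hne : x ≠ y) :
    4 ≤ hammingDist x y := by
  have a := hd_even h.2
  have b : hammingDist x y ≠ 0 := fun k => hne (hammingDist_eq_zero.1 k)
  have c : hammingDist x y ≠ 2 := fun k => by
    obtain ⟨i, j, q, rfl⟩ := hd_two k
    have z := h.1
    rw [add_assoc, map_add, left_eq_add, e_eq, e_eq] at z
    exact q (Fin.ext (hs.i1 _ _ i.2 j.2 (s_eq z)))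
  omega

theorem four_ne {α : Type} [DecidableEq α] {a b c d : α} (h : 4 ≤ ({a, b, c, d} : Finset α).card) :
    a ≠ b ∧ a ≠ c ∧ a ≠ d ∧ b ≠ c ∧ b ≠ d ∧ c ≠ d := by
  have k : ∀ x y z : α, ¬ ({a, b, c, d} : Finset α) ⊆ {x, y, z} := fun x y z q => by
    have := (card_le_card q).trans card_le_three
    omega
  refine ⟨fun q => k b c d ?_, fun q => k b c d ?_, fun q => k b c d ?_, fun q => k a c d ?_,
    fun q => k a c d ?_, fun q => k a b d ?_⟩ <;>
  · subst q
    intro x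
    simp only [mem_insert, mem_singleton]
    tauto

/-- conflict between two steps of the Gray code -/
def cf (s : V (Fin N) →+ F) (n m : ℕ) : Prop :=
  n ≠ m ∧ eqv s (gr N n) (gr N m) ∧ hammingDist (gr N (n + 1)) (gr N (m + 1)) = 2

theorem cf_form (hs : Lab s) {n m : ℕ} (hn : n + 1 < 2 ^ N) (hm : m + 1 < 2 ^ N) (h : cf s n m) :
    dl n ≠ dl m ∧ ∃ k l, k < N ∧ l < N ∧ k ≠ dl n ∧ k ≠ dl m ∧ l ≠ dl n ∧ l ≠ dl m ∧ k ≠ l ∧
      gr N m = gr N n + (en N (dl n) + en N (dl m) + en N k + en N l) := by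
  obtain ⟨h1, h2, h3⟩ := h
  obtain ⟨k, l, kl, q⟩ := hd_two h3
  rw [gr_step, gr_step, e_eq, e_eq] at q
  have q' : gr N m = gr N n + (en N (dl n) + en N (dl m) + en N k + en N l) := by
    linear_combination q - vv (en N (dl m))
  have d4 := dist4 hs h2 fun z => h1 (gr_inj (by omega) (by omega) z)
  have d5 := hd_le (x := gr N n) (y := gr N m) {⟨dl n, dl_lt hn⟩, ⟨dl m, dl_lt hm⟩, k, l}
    fun i hi => by
      simp only [mem_insert, mem_singleton, Fin.ext_iff, not_or] at hi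
      simp [q', en, hi]
  have d6 := four_ne (d4.trans d5)
  simp only [ne_eq, Fin.ext_iff] at d6
  exact ⟨d6.1, k, l, k.2, l.2, by omega, by omega, by omega, by omega, by omega, q'⟩

theorem cf_up (hs : Lab s) {n m : ℕ} (hn : n + 1 < 2 ^ N) (hm : m + 1 < 2 ^ N) (h : cf s n m)
    (hd : dl n < dl m) : 1 ≤ dl n ∧ ∃ k, k < N ∧ k + 1 ≠ dl m ∧
      gr N m = gr N n + (en N (dl n - 1) + en N (dl n) + en N (dl m) + en N k) := by
  obtain ⟨-, k, l, k1, l1, k2, k3, l2, l3, kl, q⟩ := cf_form hs hn hm h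
  have p := h.2.1.2
  rw [par_gr (by omega), par_gr (by omega)] at p
  have d1 : 1 ≤ dl n := Nat.pos_of_ne_zero fun z => by
    have := dl_zero.2 (p ▸ dl_zero.1 z)
    omega
  have dn := dl_lt hn
  have dm := dl_lt hm
  have v := congrFun q ⟨dl n - 1, by omega⟩
  simp only [gr, en, Pi.add_apply] at v
  rw [G_low (by omega), G_one (by omega), if_neg (by omega), if_neg (by omega)] at v
  obtain ⟨k', k4, q'⟩ : ∃ k', k' < N ∧
      gr N m = gr N n + (en N (dl n - 1) + en N (dl n) + en N (dl m) + en N k') := by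
    by_cases a : dl n - 1 = k
    · exact ⟨l, l1, by rw [q, a]; abel⟩
    · by_cases b : dl n - 1 = l
      · exact ⟨k, k1, by rw [q, b]; abel⟩
      · rw [if_neg a, if_neg b] at v
        exact absurd v (by decide)
  refine ⟨d1, k', k4, fun z => ?_, q'⟩
  have w := h.2.1.1
  rw [q', map_add, left_eq_add, ← z] at w
  have := hs.i2 (dl n - 1) k' (by omega) (by omega) (s_eq (by
    rw [← w, show dl n - 1 + 1 = dl n by omega]
    congr 1
    abel))
  omega

theorem cf_card (hs : Lab s) {n : ℕ} (hn : n + 1 < 2 ^ N) (t : Finset ℕ)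
    (ht : ∀ m ∈ t, m + 1 < 2 ^ N ∧ cf s n m ∧ dl n < dl m) : t.card ≤ 2 := by
  have inj : ∀ a ∈ t, ∀ b ∈ t, dl a = dl b → a = b := fun a ha b hb z => by
    obtain ⟨a1, a2, a3⟩ := ht a ha
    obtain ⟨b1, b2, b3⟩ := ht b hb
    obtain ⟨-, k, k1, -, q⟩ := cf_up hs hn a1 a2 a3
    obtain ⟨-, l, l1, -, r⟩ := cf_up hs hn b1 b2 b3
    have w := a2.2.1.1.symm.trans b2.2.1.1
    rw [q, r, z] at w
    simp only [map_add, add_right_inj] at w
    rw [hs.i1 _ _ k1 l1 w, z, ← r] at q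
    exact gr_inj (by omega) (by omega) q
  let y : ℕ → ZMod 2 := fun i => G n i + (if i = dl n - 1 then 1 else 0) + if i = dl n then 1 else 0
  have fact : ∀ a ∈ t, 1 ≤ dl a ∧ y (dl a - 1) = 1 ∧ ∃ k, ∀ i, i + 1 < dl a → i ≠ k → y i = 0 := by
    intro a ha
    obtain ⟨a1, a2, a3⟩ := ht a ha
    obtain ⟨-, k, -, k2, q⟩ := cf_up hs hn a1 a2 a3
    have da := dl_lt a1
    have v : ∀ i, i < dl a → i ≠ k → y i = G a i := fun i i1 i2 => by
      have := congrFun q ⟨i, by omega⟩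
      simp only [gr, en, Pi.add_apply] at this
      rw [if_neg i1.ne, if_neg i2, add_zero, add_zero, ← add_assoc] at this
      exact this.symm
    exact ⟨by omega, by rw [v _ (by omega) (by omega), G_one (by omega)], k,
      fun i i1 i2 => by rw [v i (by omega) i2, G_low i1]⟩
  have key : ∀ a ∈ t, ∀ b ∈ t, ∀ c ∈ t, dl a ≠ dl b → dl a < dl c → dl b < dl c → False := by
    intro a ha b hb c hc x1 x2 x3
    obtain ⟨a1, a2, -⟩ := fact a ha
    obtain ⟨b1, b2, -⟩ := fact b hb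
    obtain ⟨-, -, k, c2⟩ := fact c hc
    by_cases z : dl a - 1 = k
    · rw [c2 _ (by omega) (by omega)] at b2
      exact absurd b2 (by decide)
    · rw [c2 _ (by omega) z] at a2
      exact absurd a2 (by decide)
  by_contra hc
  obtain ⟨a, b, c, ha, hb, hc, x1, x2, x3⟩ := two_lt_card_iff.1 (not_le.1 hc)
  have y1 : dl a ≠ dl b := fun z => x1 (inj a ha b hb z)
  have y2 : dl a ≠ dl c := fun z => x2 (inj a ha c hc z)
  have y3 : dl b ≠ dl c := fun z => x3 (inj b hb c hc z)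
  rcases (show (dl a < dl c ∧ dl b < dl c) ∨ (dl a < dl b ∧ dl c < dl b) ∨
    (dl b < dl a ∧ dl c < dl a) by omega) with h | h | h
  · exact key a ha b hb c hc y1 h.1 h.2
  · exact key a ha c hc b hb y2 h.1 h.2
  · exact key b hb c hc a ha y3 h.1 h.2

theorem exists_col (hs : Lab s) : ∃ χ : ℕ → Fin 3, ∀ n m, n + 1 < 2 ^ N → m + 1 < 2 ^ N →
    cf s n m → χ n ≠ χ m := by
  have r : ∀ a, a ∈ range (2 ^ N - 1) ↔ a + 1 < 2 ^ N := fun a => by rw [mem_range]; omega
  obtain ⟨χ, hχ⟩ := greedy dl (cf s) (range (2 ^ N - 1)) 2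
    (fun a b h => ⟨h.1.symm, ⟨h.2.1.1.symm, h.2.1.2.symm⟩, by rw [hammingDist_comm]; exact h.2.2⟩)
    (fun a ha b hb h => (cf_form hs ((r a).1 ha) ((r b).1 hb) h).1)
    fun a ha t ht h => cf_card hs ((r a).1 ha) t fun m hm => ⟨(r m).1 (ht hm), h m hm⟩
  exact ⟨χ, fun n m hn hm h => hχ n ((r n).2 hn) m ((r m).2 hm) h⟩

end Pool.Agent.Work.MP_ede3c6_co.Vol
end

-- merged part: Pool.Agent.Work.MP_ede3c6_co.V.A3
section
/-! A long walk in the cube which is covered by a bounded number of codes of distance four. -/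

set_option autoImplicit false

namespace Pool.Agent.Work.MP_ede3c6_co.Vol

open Finset

/-- colours -/
abbrev Col : Type := Fin 5 × Fin 4 × ZMod 2

section Walk
variable {ι : Type} [Fintype ι]

/-- coloured walks from `a` to `b` with at least `k` vertices of colour zero -/
def Wk (S : V ι → Col → Prop) (a b : V ι) (k : ℕ) : Prop :=
  ∃ (M : ℕ) (W : ℕ → V ι) (χ : ℕ → Col), W 0 = a ∧ W M = b ∧
    (∀ i < M, hammingDist (W i) (W (i + 1)) = 1) ∧
    (∀ i j, i < j → j < M → χ i = χ j → 4 ≤ hammingDist (W i) (W j)) ∧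
    (∀ i < M, S (W i) (χ i)) ∧ k ≤ ∑ i ∈ range M, if χ i = 0 then 1 else 0

variable {S S' T : V ι → Col → Prop} {a b c : V ι} {k k' : ℕ}

theorem Wk.append (h : Wk S a b k) (h' : Wk S' b c k') (hS : ∀ x q, S x q → T x q)
    (hS' : ∀ x q, S' x q → T x q) (sep : ∀ x y q, S x q → S' y q → 4 ≤ hammingDist x y) :
    Wk T a c (k + k') := by
  obtain ⟨M, W, χ, a1, a2, a3, a4, a5, a6⟩ := h
  obtain ⟨M', W', χ', b1, b2, b3, b4, b5, b6⟩ := h'
  have p : ∀ i, i ≤ M → (if i < M then W i else W' (i - M)) = W i := fun i hi => by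
    split_ifs with z
    · rfl
    · rw [show i = M by omega, Nat.sub_self, b1, a2]
  refine ⟨M + M', fun i => if i < M then W i else W' (i - M),
    fun i => if i < M then χ i else χ' (i - M), (p 0 (Nat.zero_le _)).trans a1, by simpa using b2,
    fun i hi => ?_, fun i j h1 h2 => ?_, fun i hi => ?_, ?_⟩
  · by_cases z : i < M
    · simp only [p i z.le, p (i + 1) z, a3 i z]
    · simp only [z, show ¬ i + 1 < M by omega, if_false]
      rw [show i + 1 - M = i - M + 1 by omega, b3 _ (by omega)]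
  · by_cases z : j < M
    · simp only [z, h1.trans z, if_true]
      exact a4 i j h1 z
    · by_cases y : i < M
      · simp only [z, y, if_true, if_false]
        exact fun q => sep _ _ _ (a5 i y) (q ▸ b5 _ (by omega))
      · simp only [z, y, if_false]
        exact b4 _ _ (by omega) (by omega)
  · by_cases z : i < M
    · simp only [z, if_true]
      exact hS _ _ (a5 i z)
    · simp only [z, if_false]
      exact hS' _ _ (b5 _ (by omega))
  · rw [sum_range_add]
    refine add_le_add (a6.trans_eq (sum_congr rfl fun i hi => ?_))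
      (b6.trans_eq (sum_congr rfl fun i _ => by simp))
    simp only [mem_range.1 hi, if_true]

theorem Wk.leg {α : Type} [Fintype α] [DecidableEq α] (f : V α → V ι)
    (hf : ∀ u v, hammingDist (f u) (f v) = hammingDist u v) (κ : Fin 5) (u v : V α) :
    Wk (fun x q => q.1 = κ ∧ ∃ w, x = f w) (f u) (f v) 0 := by
  obtain ⟨G, g0, g1, g2⟩ := geo u v
  refine ⟨hammingDist u v, fun i => f (G i), fun i => (κ, ⟨i % 4, Nat.mod_lt _ four_pos⟩, 0),
    by simp only [g0], by simp only [g1], fun i hi => ?_, fun i j h1 h2 q => ?_,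
    fun i _ => ⟨rfl, _, rfl⟩, Nat.zero_le _⟩
  · rw [hf, g2 _ _ (by omega) hi]
    omega
  · simp only [Prod.mk.injEq, Fin.mk.injEq, true_and, and_true] at q
    rw [hf, g2 _ _ h1.le h2.le]
    omega

end Walk

variable {N : ℕ} {F : Type} [AddCommGroup F] {s : V (Fin N) →+ F} {χ : ℕ → Fin 3}

/-- a pair of vectors -/
def pr (x y : V (Fin N)) : V (Fin N ⊕ Fin N) := Sum.elim x y

theorem hd_pr (x x' y y' : V (Fin N)) :
    hammingDist (pr x y) (pr x' y') = hammingDist x x' + hammingDist y y' := hd_sum _ _ _ _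

theorem sep_base (hs : Lab s) {c c' : V (Fin N)} (hc : eqv s c c') {n m : ℕ} (hn : n < 2 ^ N)
    (hm : m < 2 ^ N) (hp : (n : ZMod 2) = m) (h : n ≠ m ∨ c ≠ c') :
    4 ≤ hammingDist (pr (gr N n) (gr N n + c)) (pr (gr N m) (gr N m + c')) := by
  rw [hd_pr]
  by_cases z : c = c'
  · have a := hd_even (x := gr N n) (y := gr N m) (by rw [par_gr hn, par_gr hm, hp])
    have b : hammingDist (gr N n) (gr N m) ≠ 0 := fun q =>
      (h.resolve_right fun r => r z) (gr_inj hn hm (hammingDist_eq_zero.1 q))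
    rw [z, hd_add]
    omega
  · have a := dist4 hs hc z
    have b := hammingDist_triangle (gr N n + c) (gr N m + c') (gr N n + c')
    rw [hd_add', hd_add, hammingDist_comm (gr N m)] at b
    omega

theorem sep_irr (hs : Lab s)
    (hχ : ∀ n m, n + 1 < 2 ^ N → m + 1 < 2 ^ N → cf s n m → χ n ≠ χ m) {c c' : V (Fin N)}
    (hc : eqv s c c') {n m : ℕ} (hn : n + 1 < 2 ^ N) (hm : m + 1 < 2 ^ N)
    (hp : (n : ZMod 2) = m) (hq : χ n = χ m) (h : n ≠ m ∨ c ≠ c') :
    4 ≤ hammingDist (pr (gr N (n + 1)) (gr N n + c)) (pr (gr N (m + 1)) (gr N m + c')) := by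
  rw [hd_pr]
  by_cases z : n = m
  · have a := dist4 hs hc (h.resolve_left fun r => r z)
    rw [z, hd_add']
    omega
  have p : par (gr N n) = par (gr N m) := by rw [par_gr (by omega), par_gr (by omega), hp]
  have a := hd_even (x := gr N (n + 1)) (y := gr N (m + 1)) (by
    rw [par_gr hn, par_gr hm, Nat.cast_succ, Nat.cast_succ, hp])
  have b : hammingDist (gr N (n + 1)) (gr N (m + 1)) ≠ 0 := fun q => by
    have := gr_inj hn hm (hammingDist_eq_zero.1 q)
    omega
  have d := hd_even (x := gr N n + c) (y := gr N m + c') (by rw [par_add, par_add, p, hc.2])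
  by_contra k
  have f := congrArg s (hammingDist_eq_zero.1 (show hammingDist (gr N n + c) (gr N m + c') = 0 by
    omega))
  rw [map_add, map_add, hc.1, add_left_inj] at f
  exact hχ n m hn hm ⟨z, ⟨f, p⟩, by omega⟩ hq

/-- the part of the walk which crosses one coset -/
def T1 (χ : ℕ → Fin 3) (c : V (Fin N)) (x : V (Fin N ⊕ Fin N)) (q : Col) : Prop :=
  ∃ n : ℕ, n + 1 < 2 ^ N ∧ q.2.2 = n ∧ ((q.1 = 0 ∧ x = pr (gr N n) (gr N n + c)) ∨
    (q.1 = 1 ∧ q.2.1 = (χ n).castSucc ∧ x = pr (gr N (n + 1)) (gr N n + c)))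

theorem trav (hN : 1 ≤ N) (hs : Lab s)
    (hχ : ∀ n m, n + 1 < 2 ^ N → m + 1 < 2 ^ N → cf s n m → χ n ≠ χ m) (c : V (Fin N)) :
    Wk (T1 χ c) (pr 0 c) (pr (gr N (2 ^ N - 1)) (gr N (2 ^ N - 1) + c)) (2 ^ (N - 1)) := by
  have h2 : 2 ^ N = 2 * 2 ^ (N - 1) := by rw [← pow_succ', Nat.sub_add_cancel hN]
  have h3 : 0 < 2 ^ (N - 1) := by positivity
  refine ⟨2 * (2 ^ N - 1), fun i => pr (gr N ((i + 1) / 2)) (gr N (i / 2) + c),
    fun i => if i % 2 = 0 then (0, 0, (i / 2 : ℕ)) else (1, (χ (i / 2)).castSucc, (i / 2 : ℕ)),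
    by simp [gr_zero], ?_, fun i hi => ?_, fun i j h1 hj q => ?_, fun i hi => ?_, ?_⟩
  · simp only [show (2 * (2 ^ N - 1) + 1) / 2 = 2 ^ N - 1 by omega,
      show 2 * (2 ^ N - 1) / 2 = 2 ^ N - 1 by omega]
  · have a : hammingDist (gr N (i / 2)) (gr N (i / 2 + 1)) = 1 := by
      rw [gr_step, ← e_eq ⟨dl (i / 2), dl_lt (by omega)⟩, hd_e]
    rw [hd_pr, hd_add]
    rcases Nat.mod_two_eq_zero_or_one i with z | z
    · rw [show (i + 1) / 2 = i / 2 by omega, show (i + 1 + 1) / 2 = i / 2 + 1 by omega, a,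
        hammingDist_self]
    · rw [show (i + 1) / 2 = i / 2 + 1 by omega, show (i + 1 + 1) / 2 = i / 2 + 1 by omega, a,
        hammingDist_self]
  · by_cases z : i % 2 = 0 <;> by_cases y : j % 2 = 0 <;>
      simp only [z, y, if_true, if_false, Prod.mk.injEq, true_and] at q
    · simp only [show (i + 1) / 2 = i / 2 by omega, show (j + 1) / 2 = j / 2 by omega]
      exact sep_base hs ⟨rfl, rfl⟩ (by omega) (by omega) q (Or.inl (by omega))
    · exact absurd q.1 (by decide)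
    · exact absurd q.1 (by decide)
    · simp only [show (i + 1) / 2 = i / 2 + 1 by omega, show (j + 1) / 2 = j / 2 + 1 by omega]
      exact sep_irr hs hχ ⟨rfl, rfl⟩ (by omega) (by omega) q.2 (Fin.castSucc_injective _ q.1)
        (Or.inl (by omega))
  · refine ⟨i / 2, by omega, by dsimp only; split_ifs <;> rfl, ?_⟩
    by_cases z : i % 2 = 0
    · simp [z, show (i + 1) / 2 = i / 2 by omega]
    · simp [z, show (i + 1) / 2 = i / 2 + 1 by omega]
  · rw [← card_filter]
    refine (card_range _).ge.trans (card_le_card_of_injOn (fun r => 4 * r) (fun r hr => ?_)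
      fun a _ b _ q => by simpa using q)
    have hr' : r < 2 ^ (N - 1) := by simpa using hr
    simp only [coe_filter, mem_range, Set.mem_ofPred_eq]
    refine ⟨by omega, ?_⟩
    rw [if_pos (by omega), show 4 * r / 2 = 2 * r by omega, Nat.cast_mul,
      mul_eq_zero_of_left (by decide)]
    rfl

/-- the part of the walk which belongs to one coset -/
def T (χ : ℕ → Fin 3) (c : V (Fin N)) (x : V (Fin N ⊕ Fin N)) (q : Col) : Prop :=
  (q.1 = 2 ∧ ∃ u, x = pr u c) ∨ T1 χ c x q ∨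
    (q.1 = 3 ∧ ∃ u, x = pr u (gr N (2 ^ N - 1) + c)) ∨ (q.1 = 4 ∧ ∃ u, x = pr c u)

theorem T1.kind {c : V (Fin N)} {x : V (Fin N ⊕ Fin N)} {q : Col} (h : T1 χ c x q) :
    q.1 = 0 ∨ q.1 = 1 := by
  obtain ⟨n, -, -, h | h⟩ := h
  exacts [Or.inl h.1, Or.inr h.1]

theorem block (hN : 1 ≤ N) (hs : Lab s)
    (hχ : ∀ n m, n + 1 < 2 ^ N → m + 1 < 2 ^ N → cf s n m → χ n ≠ χ m) (u c v : V (Fin N)) :
    Wk (T χ c) (pr u c) (pr c v) (2 ^ (N - 1)) := by
  have l1 := fun (y : V (Fin N)) => Wk.leg (fun w => pr w y) fun a b => by simp [hd_pr]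
  have l2 := Wk.leg (fun w => pr c w) (fun a b => by simp [hd_pr]) 4 (gr N (2 ^ N - 1) + c) v
  have a1 := (l1 (gr N (2 ^ N - 1) + c) 3 (gr N (2 ^ N - 1)) c).append l2
    (fun _ _ => Or.inl) (fun _ _ => Or.inr) fun x y q h h' => absurd (h.1.symm.trans h'.1) (by decide)
  have a2 := (trav hN hs hχ c).append a1 (fun _ _ => Or.inl) (fun _ _ => Or.inr)
    fun x y q h h' => by
      rcases h.kind with z | z <;> rcases h' with y | y <;>
        exact absurd (z.symm.trans y.1) (by decide)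
  have a3 := (l1 c 2 u 0).append a2 (T := T χ c) (fun _ _ => Or.inl) (fun _ _ => Or.inr)
    fun x y q h h' => by
      rcases h' with y | y | y
      · rcases y.kind with z | z <;> exact absurd (z.symm.trans h.1) (by decide)
      · exact absurd (y.1.symm.trans h.1) (by decide)
      · exact absurd (y.1.symm.trans h.1) (by decide)
  simpa using a3

theorem T_sep (hs : Lab s)
    (hχ : ∀ n m, n + 1 < 2 ^ N → m + 1 < 2 ^ N → cf s n m → χ n ≠ χ m) {c c' : V (Fin N)}
    (hc : eqv s c c') (hne : c ≠ c') {x y : V (Fin N ⊕ Fin N)} {q : Col} (h : T χ c x q)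
    (h' : T χ c' y q) : 4 ≤ hammingDist x y := by
  have d := dist4 hs hc hne
  rcases h with ⟨a, u, rfl⟩ | ⟨n, a0, a1, ⟨a, rfl⟩ | ⟨a, a2, rfl⟩⟩ | ⟨a, u, rfl⟩ | ⟨a, u, rfl⟩ <;>
    rcases h' with ⟨b, w, rfl⟩ | ⟨m, b0, b1, ⟨b, rfl⟩ | ⟨b, b2, rfl⟩⟩ | ⟨b, w, rfl⟩ |
      ⟨b, w, rfl⟩ <;>
    try exact absurd (a.symm.trans b) (by decide)
  · rw [hd_pr]; omega
  · exact sep_base hs hc (by omega) (by omega) (a1.symm.trans b1) (Or.inr hne)
  · exact sep_irr hs hχ hc a0 b0 (a1.symm.trans b1)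
      (Fin.castSucc_injective _ (a2.symm.trans b2)) (Or.inr hne)
  · rw [hd_pr, hd_add' c c']; omega
  · rw [hd_pr]; omega

theorem walk (hN : 1 ≤ N) (hs : Lab s) (C : Finset (V (Fin N)))
    (hC : ∀ c ∈ C, ∀ c' ∈ C, eqv s c c') :
    ∃ a b, Wk (fun x q => q = 0 → ∃ c ∈ C, ∃ w, par w = 0 ∧ x = pr w (w + c)) a b
      (C.card * 2 ^ (N - 1)) := by
  classical
  obtain ⟨χ, hχ⟩ := exists_col hs
  have key : ∀ D : Finset (V (Fin N)), D ⊆ C → ∀ v, ∃ a u,
      Wk (fun x q => ∃ c ∈ D, T χ c x q) a (pr u v) (D.card * 2 ^ (N - 1)) := by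
    intro D
    induction D using Finset.induction_on with
    | empty =>
      exact fun _ v => ⟨pr 0 v, 0, 0, fun _ => pr 0 v, fun _ => 0, rfl, rfl, by simp, by simp,
        by simp, by simp⟩
    | insert c D hc ih =>
      intro hD v
      obtain ⟨a, u, h⟩ := ih ((subset_insert c D).trans hD) c
      refine ⟨a, c, ?_⟩
      rw [card_insert_of_notMem hc, add_one_mul]
      exact h.append (block hN hs hχ u c v)
        (fun x q ⟨d, d1, d2⟩ => ⟨d, mem_insert_of_mem d1, d2⟩)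
        (fun x q k => ⟨c, mem_insert_self _ _, k⟩) fun x y q ⟨d, d1, d2⟩ k =>
          T_sep hs hχ (hC _ (hD (mem_insert_of_mem d1)) _ (hD (mem_insert_self _ _)))
            (fun z => hc (z ▸ d1)) d2 k
  obtain ⟨a, u, M, W, χ', a1, a2, a3, a4, a5, a6⟩ := key C Subset.rfl 0
  refine ⟨a, _, M, W, χ', a1, a2, a3, a4, fun i hi q => ?_, a6⟩
  obtain ⟨c, c1, c2⟩ := a5 i hi
  rw [q] at c2
  rcases c2 with z | ⟨n, z0, z1, z | z⟩ | z | z
  · exact absurd z.1 (by decide)
  · exact ⟨c, c1, _, by rw [par_gr (by omega), ← z1]; rfl, z.2⟩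
  all_goals exact absurd z.1 (by decide)

end Pool.Agent.Work.MP_ede3c6_co.Vol
end

-- merged part: Pool.Agent.Work.MP_ede3c6_co.V.A4
section
/-! The lift of a coloured walk to a path of spread three. -/

set_option autoImplicit false

namespace Pool.Agent.Work.MP_ede3c6_co.Vol

open Finset

/-- the layer at phase `t`, with previous colour `a`, colour `c` and next colour `b` -/
def lay (a c b : Col) (t : ℕ) : V (Col × Fin 3) := fun x =>
  if x.1 = c ∨ (x.1 = a ∧ t ≤ x.2) ∨ (x.1 = b ∧ x.2 + 3 < t) then 1 else 0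

theorem hd_blk {y y' : V (Col × Fin 3)} {a b : Col} (h : a ≠ b) (p q : Finset (Fin 3))
    (hp : ∀ j ∈ p, y (a, j) ≠ y' (a, j)) (hq : ∀ j ∈ q, y (b, j) ≠ y' (b, j)) :
    p.card + q.card ≤ hammingDist y y' := by
  have := hd_ge (x := y) (y := y') ({a} ×ˢ p ∪ {b} ×ˢ q) fun x hx => by
    simp only [mem_union, mem_product, mem_singleton] at hx
    obtain ⟨u, j⟩ := x
    rcases hx with ⟨rfl, k⟩ | ⟨rfl, k⟩
    exacts [hp j k, hq j k]
  rwa [card_union_of_disjoint (disjoint_product.2 (Or.inl (by simpa using h))), card_product,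
    card_product, card_singleton, card_singleton, one_mul, one_mul] at this

variable {a b c a' b' c' : Col} {t t' : ℕ}

theorem lay_end (a c b b' : Col) : lay a c b 6 = lay c b b' 0 := by
  funext x
  have := x.2.2
  simp only [lay, show ¬ 6 ≤ (x.2 : ℕ) by omega, show (x.2 : ℕ) + 3 < 6 by omega, and_false,
    and_true, false_or, Nat.zero_le, Nat.not_lt_zero, or_comm]

theorem lay_same (h1 : a ≠ c) (h2 : b ≠ c) (h3 : a ≠ b) (ht : t < t') (ht' : t' < 7) :
    t' - t ≤ hammingDist (lay a c b t) (lay a c b t') := by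
  refine le_trans ?_ (hd_blk h3 (univ.filter fun j => t ≤ j ∧ (j : ℕ) < t')
    (univ.filter fun j => t ≤ j + 3 ∧ (j : ℕ) + 3 < t') (fun j hj => ?_) fun j hj => ?_)
  · interval_cases t' <;> interval_cases t <;> decide
  · obtain ⟨k1, k2⟩ := (mem_filter.1 hj).2
    simp [lay, h1, h3, k1, not_le.2 k2]
  · obtain ⟨k1, k2⟩ := (mem_filter.1 hj).2
    simp [lay, h2, h3.symm, not_lt.2 k1, k2]

theorem lay_step (ht : t < 6) : hammingDist (lay a c b t) (lay a c b (t + 1)) ≤ 1 := by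
  by_cases h : t < 3
  · refine (hd_le {(a, ⟨t, h⟩)} fun x hx => ?_).trans (card_singleton _).le
    have k : x.1 = a → (x.2 : ℕ) ≠ t := fun p q => hx (mem_singleton.2 (Prod.ext p (Fin.ext q)))
    refine if_congr (or_congr Iff.rfl (or_congr (and_congr_right fun p => ?_)
      (and_congr_right fun _ => by omega))) rfl rfl
    have := k p
    omega
  · refine (hd_le {(b, ⟨t - 3, by omega⟩)} fun x hx => ?_).trans (card_singleton _).le
    have k : x.1 = b → (x.2 : ℕ) ≠ t - 3 := fun p q =>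
      hx (mem_singleton.2 (Prod.ext p (Fin.ext q)))
    have := x.2.2
    refine if_congr (or_congr Iff.rfl (or_congr (and_congr_right fun _ => by omega)
      (and_congr_right fun p => ?_))) rfl rfl
    have := k p
    omega

theorem lay_next (h1 : a ≠ b) (h2 : b ≠ c) (h3 : c ≠ b') (ht : t < 7) (ht' : t' < 7) :
    min (7 + t' - t) 3 ≤ 1 + hammingDist (lay a c b t) (lay c b b' t') := by
  refine le_trans ?_ (Nat.add_le_add_left (hd_blk h2 (univ.filter fun j => t ≤ j + 3)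
    (univ.filter fun j => (j : ℕ) < t') (fun j hj => ?_) fun j hj => ?_) 1)
  · interval_cases t' <;> interval_cases t <;> decide
  · simp [lay, h2, h1.symm, not_lt.2 (mem_filter.1 hj).2]
  · simp [lay, h2.symm, h3, not_le.2 (mem_filter.1 hj).2]

theorem lay_far (h1 : c' ≠ a) (h2 : c' ≠ c) (h3 : c' ≠ b) :
    3 ≤ hammingDist (lay a c b t) (lay a' c' b' t') := by
  have := hd_ge (x := lay a c b t) (y := lay a' c' b' t') ({c'} ×ˢ univ) fun x hx => by
    simp only [mem_product, mem_singleton] at hx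
    simp [lay, hx.1, h1, h2, h3]
  simpa using this

theorem lay_cur {β : ℕ} (hβ : β ≤ 1) (h : lay a c b (3 + β) = lay a' c' b' t') : c' = c := by
  have := congrFun h (c', 1)
  by_contra k
  simp [lay, k, show ¬ 3 + β ≤ 1 by omega, show ¬ 4 < 3 + β by omega] at this

theorem lay_ph {β β' : ℕ} (hβ : β ≤ 1) (hβ' : β' ≤ 1) (h2 : b ≠ c) (h3 : b' ≠ c)
    (h : lay a c b (3 + β) = lay a' c b' (3 + β')) : β = β' := by
  have p := congrFun h (b, 0)
  have q := congrFun h (b', 0)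
  interval_cases β <;> interval_cases β' <;> simp [lay, h2, h3] at p q ⊢

variable {ι : Type} [Fintype ι]

/-- the lifted path -/
def lift (W : ℕ → V ι) (χ : ℕ → Col) (i : ℕ) : V (ι ⊕ Col × Fin 3) :=
  Sum.elim (W (i / 7 + 1)) (lay (χ (i / 7)) (χ (i / 7 + 1)) (χ (i / 7 + 2)) (i % 7))

variable {W : ℕ → V ι} {χ : ℕ → Col} {M : ℕ}

theorem col_ne (h1 : ∀ i < M, hammingDist (W i) (W (i + 1)) = 1)
    (h2 : ∀ i j, i < j → j < M → χ i = χ j → 4 ≤ hammingDist (W i) (W j)) {i : ℕ}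
    (hi : i + 2 < M) : χ i ≠ χ (i + 1) ∧ χ (i + 2) ≠ χ (i + 1) ∧ χ i ≠ χ (i + 2) := by
  have a := h1 i (by omega)
  have b := h1 (i + 1) (by omega)
  have c := hammingDist_triangle (W i) (W (i + 1)) (W (i + 1 + 1))
  refine ⟨fun q => ?_, fun q => ?_, fun q => ?_⟩
  · have := h2 i (i + 1) (by omega) (by omega) q
    omega
  · have := h2 (i + 1) (i + 1 + 1) (by omega) hi q.symm
    omega
  · have := h2 i (i + 1 + 1) (by omega) hi q
    omega

theorem lift_spr (h1 : ∀ i < M, hammingDist (W i) (W (i + 1)) = 1)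
    (h2 : ∀ i j, i < j → j < M → χ i = χ j → 4 ≤ hammingDist (W i) (W j)) {i j : ℕ}
    (hij : i < j) (hj : j < 7 * (M - 2)) :
    min (j - i) 3 ≤ hammingDist (lift W χ i) (lift W χ j) := by
  unfold lift
  rw [hd_sum]
  obtain ⟨a1, a2, a3⟩ := col_ne h1 h2 (i := i / 7) (by omega)
  obtain ⟨-, -, b3⟩ := col_ne h1 h2 (i := j / 7) (by omega)
  rcases (show j / 7 = i / 7 ∨ j / 7 = i / 7 + 1 ∨ i / 7 + 1 < j / 7 by omega) with h | h | h
  · have := lay_same a1 a2 a3 (t := i % 7) (t' := j % 7) (by omega) (by omega)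
    rw [h]
    omega
  · rw [h] at b3 ⊢
    have := lay_next a3 a2 b3 (t := i % 7) (t' := j % 7) (by omega) (by omega)
    rw [h1 _ (by omega)]
    change _ ≤ 1 + hammingDist _ (lay _ (χ (i / 7 + 2)) _ _)
    omega
  · refine (min_le_right _ _).trans ?_
    have p := h1 (i / 7) (by omega)
    have q := h1 (i / 7 + 1) (by omega)
    by_cases c1 : χ (j / 7 + 1) = χ (i / 7)
    · have := h2 _ _ (by omega) (by omega) c1.symm
      have := hammingDist_triangle (W (i / 7)) (W (i / 7 + 1)) (W (j / 7 + 1))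
      omega
    by_cases c2 : χ (j / 7 + 1) = χ (i / 7 + 1)
    · have := h2 _ _ (by omega) (by omega) c2.symm
      omega
    by_cases c3 : χ (j / 7 + 1) = χ (i / 7 + 1 + 1)
    · have := h2 _ _ (by omega) (by omega) c3.symm
      have := hammingDist_triangle (W (i / 7 + 1 + 1)) (W (i / 7 + 1)) (W (j / 7 + 1))
      rw [hammingDist_comm] at q
      omega
    exact le_add_left (lay_far c1 c2 c3)

theorem lift_step (h1 : ∀ i < M, hammingDist (W i) (W (i + 1)) = 1)
    (h2 : ∀ i j, i < j → j < M → χ i = χ j → 4 ≤ hammingDist (W i) (W j)) {i : ℕ}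
    (hi : i + 1 < 7 * (M - 2)) : hammingDist (lift W χ i) (lift W χ (i + 1)) = 1 := by
  have a := lift_spr h1 h2 (show i < i + 1 by omega) hi
  refine le_antisymm ?_ (by omega)
  unfold lift
  rw [hd_sum]
  by_cases h : i % 7 < 6
  · rw [show (i + 1) / 7 = i / 7 by omega, show (i + 1) % 7 = i % 7 + 1 by omega,
      hammingDist_self, zero_add]
    exact lay_step h
  · rw [show (i + 1) / 7 = i / 7 + 1 by omega, show (i + 1) % 7 = 0 by omega,
      show i % 7 = 6 by omega, h1 _ (by omega), lay_end _ _ _ (χ (i / 7 + 1 + 2)),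
      hammingDist_self]

omit [Fintype ι] in
theorem lift_at (W : ℕ → V ι) (χ : ℕ → Col) (i : ℕ) {β : ℕ} (hβ : β ≤ 1) :
    lift W χ (7 * i + 3 + β) = Sum.elim (W (i + 1)) (lay (χ i) (χ (i + 1)) (χ (i + 2)) (3 + β)) := by
  unfold lift
  rw [show (7 * i + 3 + β) / 7 = i by omega, show (7 * i + 3 + β) % 7 = 3 + β by omega]

end Pool.Agent.Work.MP_ede3c6_co.Vol
end

-- merged part: Pool.Agent.Work.MP_ede3c6_co.V.A5
section
/-! A path of spread three with many places at which a detour can be inserted. -/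

set_option autoImplicit false

namespace Pool.Agent.Work.MP_ede3c6_co.Vol

open Finset

/-- a host path `P` with places `Q`, leaf directions `J` and detours `Z` -/
structure HP {ι : Type} [Fintype ι] [DecidableEq ι] (P : ℕ → V ι) (L : ℕ) (Q : Finset ℕ)
    (J : Finset ι) (Z : ℕ → ℕ → V ι) (D μ : ℕ) : Prop where
  step : ∀ i, i + 1 < L → hammingDist (P i) (P (i + 1)) = 1
  spr : ∀ i j, i < j → j < L → min (j - i) 3 ≤ hammingDist (P i) (P j)
  lt : ∀ q ∈ Q, q + 4 ≤ L
  gap : ∀ q ∈ Q, ∀ q' ∈ Q, q < q' → q + 4 ≤ q'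
  z0 : ∀ d, Z d 0 = 0
  zs : ∀ d < D, ∀ t < μ, hammingDist (Z d t) (Z d (t + 1)) = 1
  zt : ∀ d < D, ∀ t ≤ μ, ∀ t' ≤ μ, Z d t = Z d t' → t = t'
  zd : ∀ d < D, ∀ d' < D, ∀ t ≤ μ, t ≠ 0 → Z d t = Z d' t → d = d'
  sA : ∀ q ∈ Q, ∀ q' ∈ Q, ∀ β ≤ 1, ∀ β' ≤ 1, ∀ d < D, ∀ d' < D, ∀ t ≤ μ, ∀ t' ≤ μ,
    P (q + β) + Z d t = P (q' + β') + Z d' t' → q = q' ∧ β = β'
  sB : ∀ q ∈ Q, ∀ q' ∈ Q, ∀ β ≤ 1, ∀ β' ≤ 1, ∀ d d' t t', ∀ c ∈ J,
    P (q + β) + Z d t + e c ≠ P (q' + β') + Z d' t'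
  sC : ∀ q ∈ Q, ∀ β ≤ 1, ∀ d t, ∀ c ∈ J, ∀ j < L, P (q + β) + Z d t + e c ≠ P j
  sD : ∀ q ∈ Q, ∀ β ≤ 1, ∀ d < D, ∀ t ≤ μ, ∀ j < L, P (q + β) + Z d t = P j → t = 0

variable {N : ℕ} {F : Type} [AddCommGroup F] {s : V (Fin N) →+ F}

/-- zigzag walks -/
def zig (N d t : ℕ) : V (Fin N) :=
  if t = 0 then 0 else if t % 2 = 1 then en N (d + t / 2) else
    en N (d + t / 2 - 1) + en N (d + t / 2)

theorem par_en {i : ℕ} (h : i < N) : par (en N i) = 1 := by
  rw [← e_eq ⟨i, h⟩, par_e]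

theorem zig_step {d t : ℕ} (h : d + t + 1 < N) : hammingDist (zig N d t) (zig N d (t + 1)) = 1 := by
  have k : ∀ (x : V (Fin N)) (i : ℕ), i < N → hammingDist x (x + en N i) = 1 := fun x i hi => by
    rw [← e_eq ⟨i, hi⟩, hd_e]
  unfold zig
  by_cases a : t = 0
  · subst a
    simpa using k 0 d (by omega)
  by_cases b : t % 2 = 1
  · rw [if_neg a, if_pos b, if_neg (by omega), if_neg (by omega),
      show d + (t + 1) / 2 - 1 = d + t / 2 by omega]
    exact k _ _ (by omega)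
  · rw [if_neg a, if_neg b, if_neg (by omega), if_pos (by omega), show (t + 1) / 2 = t / 2 by omega,
      hammingDist_comm, add_comm (en N _)]
    exact k _ _ (by omega)

theorem zig_eqv (hs : Lab s) {d t d' t' : ℕ} (h : d + t < N) (h' : d' + t' < N)
    (q : eqv s (zig N d t) (zig N d' t')) :
    (t = 0 ∧ t' = 0) ∨ (t ≠ 0 ∧ t' ≠ 0 ∧ t % 2 = t' % 2 ∧ d + t / 2 = d' + t' / 2) := by
  have p0 : par (0 : V (Fin N)) = 0 := by simp [par]
  have ev : ∀ d t, t ≠ 0 → ¬ t % 2 = 1 → en N (d + t / 2 - 1) + en N (d + t / 2) =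
      en N (d + t / 2 - 1) + en N (d + t / 2 - 1 + 1) := fun d t a b => by
    rw [show d + t / 2 - 1 + 1 = d + t / 2 by omega]
  have z : ∀ d t, d + t < N → t ≠ 0 → ¬ t % 2 = 1 →
      s (en N (d + t / 2 - 1) + en N (d + t / 2)) ≠ 0 := fun d t a b c k => by
    have := hs.i1 _ _ (by omega) (by omega) (s_eq k)
    omega
  obtain ⟨q1, q2⟩ := q
  unfold zig at q1 q2
  by_cases a : t = 0 <;> by_cases a' : t' = 0 <;> by_cases b : t % 2 = 1 <;>
    by_cases b' : t' % 2 = 1 <;>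
    simp only [a, a', b, b', if_true, if_false, map_zero, par_add, p0] at q1 q2 <;>
    first
    | omega
    | exact absurd q1.symm (z _ _ h' a' b')
    | exact absurd q1 (z _ _ h a b)
    | (have := hs.i1 _ _ (by omega) (by omega) q1; omega)
    | (rw [ev _ _ a b, ev _ _ a' b'] at q1
       have := hs.i2 _ _ (by omega) (by omega) q1
       omega)
    | (repeat rw [par_en (by omega)] at q2
       exact absurd q2 (by decide))

theorem zig_eq {d t d' t' : ℕ}
    (h : (t = 0 ∧ t' = 0) ∨ (t ≠ 0 ∧ t' ≠ 0 ∧ t % 2 = t' % 2 ∧ d + t / 2 = d' + t' / 2)) :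
    zig N d t = zig N d' t' := by
  unfold zig
  rcases h with ⟨a, b⟩ | ⟨a, b, c, k⟩
  · rw [if_pos a, if_pos b]
  · rw [if_neg a, if_neg b, c, k]

theorem pr_add (x y x' y' : V (Fin N)) : pr x y + pr x' y' = pr (x + x') (y + y') := by
  funext i
  rcases i with i | i <;> rfl

theorem pr_inj {x y x' y' : V (Fin N)} (h : pr x y = pr x' y') : x = x' ∧ y = y' :=
  ⟨funext fun i => congrFun h (Sum.inl i), funext fun i => congrFun h (Sum.inr i)⟩

theorem core1 {w w' c c' z z' : V (Fin N)} (hc : eqv s c c')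
    (h : pr w (w + c) + pr z 0 = pr w' (w' + c') + pr z' 0) : eqv s z z' := by
  rw [pr_add, pr_add] at h
  obtain ⟨h1, h2⟩ := pr_inj h
  have k : z + z' = c + c' := by linear_combination h1 - h2 + vv z' - vv c'
  refine ⟨s_eq (by rw [k, map_add, hc.1, s_two]), ?_⟩
  have := congrArg par k
  rw [par_add, par_add, hc.2, CharTwo.add_self_eq_zero] at this
  exact CharTwo.add_eq_zero.1 this

theorem core2 {w w' c c' z z' : V (Fin N)} (hc : eqv s c c') (hw : par w = 0) (hw' : par w' = 0)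
    (i : Fin N) : pr w (w + c) + pr z (e i) ≠ pr w' (w' + c') + pr z' 0 := fun h => by
  rw [pr_add, pr_add] at h
  have := congrArg par (pr_inj h).2
  rw [add_zero, par_add, par_add, par_add, hw, hw', hc.2, par_e, add_eq_left] at this
  exact absurd this (by decide)

theorem elim_add {α β : Type} (x x' : V α) (y y' : V β) :
    (Sum.elim x y + Sum.elim x' y' : V (α ⊕ β)) = Sum.elim (x + x') (y + y') := by
  funext i
  rcases i with i | i <;> rfl

theorem elim_inj {α β : Type} {x x' : V α} {y y' : V β} (h : Sum.elim x y = Sum.elim x' y') :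
    x = x' ∧ y = y' :=
  ⟨funext fun i => congrFun h (Sum.inl i), funext fun i => congrFun h (Sum.inr i)⟩

theorem e_inl {α β : Type} [DecidableEq α] [DecidableEq β] (c : α) :
    (e (Sum.inl c) : V (α ⊕ β)) = Sum.elim (e c) 0 := by
  funext i
  rcases i with i | i <;> simp [e_apply]

theorem e_inr {α β : Type} [DecidableEq α] [DecidableEq β] (c : β) :
    (e (Sum.inr c) : V (α ⊕ β)) = Sum.elim (0 : V α) (e c) := by
  funext i
  rcases i with i | i <;> simp [e_apply]

theorem hp_of_code (hN : 1 ≤ N) (hs : Lab s) (C : Finset (V (Fin N)))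
    (hC : ∀ c ∈ C, ∀ c' ∈ C, eqv s c c') {D μ : ℕ} (hD : D + μ ≤ N) :
    ∃ (P : ℕ → V ((Fin N ⊕ Fin N) ⊕ Col × Fin 3)) (L : ℕ) (Q : Finset ℕ) (J : Finset _)
      (Z : ℕ → ℕ → V _), HP P L Q J Z D μ ∧ J.card = N ∧ C.card * 2 ^ (N - 1) ≤ Q.card + 2 := by
  obtain ⟨-, -, M, W, χ, -, -, h1, h2, h3, h4⟩ := walk hN hs C hC
  let I := (range (M - 2)).filter fun i => χ (i + 1) = 0
  let Z : ℕ → ℕ → V ((Fin N ⊕ Fin N) ⊕ Col × Fin 3) := fun d t => Sum.elim (pr (zig N d t) 0) 0
  have mem : ∀ q ∈ I.image fun i => 7 * i + 3, ∃ i, i + 2 < M ∧ χ (i + 1) = 0 ∧ q = 7 * i + 3 :=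
    fun q hq => by
      obtain ⟨i, a, rfl⟩ := mem_image.1 hq
      have := mem_range.1 (mem_filter.1 a).1
      exact ⟨i, by omega, (mem_filter.1 a).2, rfl⟩
  have cur : ∀ i β j (y : V (Fin N ⊕ Fin N)), β ≤ 1 → χ (i + 1) = 0 →
      lift W χ (7 * i + 3 + β) + Sum.elim y 0 = lift W χ j →
      χ (j / 7 + 1) = 0 ∧ W (i + 1) + y = W (j / 7 + 1) := fun i β j y a b k => by
    rw [lift_at W χ i a, lift, elim_add, add_zero] at k
    exact ⟨(lay_cur a (elim_inj k).2).trans b, (elim_inj k).1⟩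
  have ze : ∀ d t (c : Fin N), Z d t + e (Sum.inl (Sum.inr c)) =
      Sum.elim (pr (zig N d t) (e c)) 0 := fun d t c => by
    rw [e_inl, e_inr, elim_add, add_zero]
    congr 1
    exact (pr_add _ _ _ _).trans (by rw [add_zero, zero_add])
  have z00 : ∀ x : V (Fin N ⊕ Fin N), x = x + pr (zig N 0 0) 0 := fun x => by
    funext i
    rcases i with i | i <;> simp [pr, zig]
  refine ⟨lift W χ, 7 * (M - 2), I.image fun i => 7 * i + 3,
    univ.map ⟨fun c => Sum.inl (Sum.inr c), fun a b h => by simpa using h⟩, Z,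
    ⟨fun i => lift_step h1 h2, fun i j => lift_spr h1 h2, fun q hq => ?_, fun q hq q' hq' h => ?_,
      fun d => ?_, fun d hd t ht => ?_, fun d hd t ht t' ht' h => ?_,
      fun d hd d' hd' t ht h0 h => ?_, fun q hq q' hq' β hβ β' hβ' d hd d' hd' t ht t' ht' h => ?_,
      fun q hq q' hq' β hβ β' hβ' d d' t t' c hc h => ?_, fun q hq β hβ d t c hc j hj h => ?_,
      fun q hq β hβ d hd t ht j hj h => ?_⟩, by simp, ?_⟩
  · obtain ⟨i, a, -, rfl⟩ := mem q hq
    omega
  · obtain ⟨i, -, -, rfl⟩ := mem q hq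
    obtain ⟨i', -, -, rfl⟩ := mem q' hq'
    omega
  · funext i
    rcases i with (i | i) | i <;> simp [Z, pr, zig]
  · simp only [Z, hd_sum, hd_pr, hammingDist_self, add_zero]
    exact zig_step (by omega)
  · have k := (pr_inj (elim_inj h).1).1
    have := zig_eqv hs (d := d) (t := t) (d' := d) (t' := t') (by omega) (by omega) (by
      rw [k]; exact ⟨rfl, rfl⟩)
    omega
  · have k := (pr_inj (elim_inj h).1).1
    have := zig_eqv hs (d := d) (t := t) (d' := d') (t' := t) (by omega) (by omega) (by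
      rw [k]; exact ⟨rfl, rfl⟩)
    omega
  · obtain ⟨i, a, b, rfl⟩ := mem q hq
    obtain ⟨i', a', b', rfl⟩ := mem q' hq'
    rw [lift_at W χ i hβ, lift_at W χ i' hβ', elim_add, elim_add, add_zero, add_zero] at h
    obtain ⟨k1, k2⟩ := elim_inj h
    obtain ⟨c, c1, w, -, c2⟩ := h3 (i + 1) (by omega) b
    obtain ⟨c', c1', w', -, c2'⟩ := h3 (i' + 1) (by omega) b'
    have k3 := zig_eq (N := N) (zig_eqv hs (d := d) (t := t) (d' := d') (t' := t') (by omega)
      (by omega) (core1 (hC c c1 c' c1') (by rw [← c2, ← c2', k1])))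
    rw [k3, add_left_inj] at k1
    obtain rfl : i = i' := by
      rcases lt_trichotomy i i' with z | z | z
      · have := h2 (i + 1) (i' + 1) (by omega) (by omega) (b.trans b'.symm)
        rw [k1, hammingDist_self] at this
        omega
      · exact z
      · have := h2 (i' + 1) (i + 1) (by omega) (by omega) (b'.trans b.symm)
        rw [k1, hammingDist_self] at this
        omega
    have := (col_ne h1 h2 a).2.1
    exact ⟨rfl, lay_ph hβ hβ' this this k2⟩
  · obtain ⟨i, a, b, rfl⟩ := mem q hq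
    obtain ⟨i', a', b', rfl⟩ := mem q' hq'
    obtain ⟨c0, -, rfl⟩ := mem_map.1 hc
    rw [add_assoc, Function.Embedding.coeFn_mk, ze, lift_at W χ i hβ, lift_at W χ i' hβ', elim_add,
      elim_add] at h
    obtain ⟨c, c1, w, p, c2⟩ := h3 (i + 1) (by omega) b
    obtain ⟨c', c1', w', p', c2'⟩ := h3 (i' + 1) (by omega) b'
    exact core2 (hC c c1 c' c1') p p' c0 (by rw [← c2, ← c2']; exact (elim_inj h).1)
  · obtain ⟨i, a, b, rfl⟩ := mem q hq
    obtain ⟨c0, -, rfl⟩ := mem_map.1 hc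
    rw [add_assoc, Function.Embedding.coeFn_mk, ze] at h
    obtain ⟨b', k⟩ := cur _ _ _ _ hβ b h
    obtain ⟨c, c1, w, p, c2⟩ := h3 (i + 1) (by omega) b
    obtain ⟨c', c1', w', p', c2'⟩ := h3 (j / 7 + 1) (by omega) b'
    exact core2 (hC c c1 c' c1') p p' c0 (by rw [← c2, ← c2']; exact k.trans (z00 _))
  · obtain ⟨i, a, b, rfl⟩ := mem q hq
    obtain ⟨b', k⟩ := cur _ _ _ _ hβ b h
    obtain ⟨c, c1, w, -, c2⟩ := h3 (i + 1) (by omega) b
    obtain ⟨c', c1', w', -, c2'⟩ := h3 (j / 7 + 1) (by omega) b'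
    have := zig_eqv hs (d := d) (t := t) (d' := 0) (t' := 0) (by omega) (by omega)
      (core1 (hC c c1 c' c1') (by rw [← c2, ← c2']; exact k.trans (z00 _)))
    omega
  · rw [card_image_of_injective _ fun a b h => by simpa using h]
    refine h4.trans ?_
    rw [← card_filter]
    refine (card_le_card (t := {0, M - 1} ∪ I.image (· + 1)) fun i hi => ?_).trans
      ((card_union_le _ _).trans ?_)
    · obtain ⟨a, b⟩ := mem_filter.1 hi
      rw [mem_range] at a
      by_cases z : i = 0 ∨ i = M - 1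
      · exact mem_union_left _ (by simpa using z)
      · have y : i - 1 + 1 = i := by omega
        exact mem_union_right _ (mem_image.2 ⟨i - 1,
          mem_filter.2 ⟨mem_range.2 (by omega), by rw [y, b]⟩, y⟩)
    · have := card_image_le (s := I) (f := (· + 1))
      have := card_le_two (a := 0) (b := M - 1)
      omega

theorem exists_hp (hN : 1 ≤ N) {D μ : ℕ} (hD : D + μ ≤ N) :
    ∃ (P : ℕ → V ((Fin N ⊕ Fin N) ⊕ Col × Fin 3)) (L : ℕ) (Q : Finset ℕ) (J : Finset _)
      (Z : ℕ → ℕ → V _), HP P L Q J Z D μ ∧ J.card = N ∧ 2 ^ (2 * N) ≤ 8 * N * (Q.card + 2) ∧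
        2 ^ (N - 1) ≤ Q.card + 2 := by
  classical
  obtain ⟨ρ, r1, r2, s, hs⟩ := exists_lab hN
  have := Fintype.ofFinite (GaloisField 2 ρ)
  have c1 : Fintype.card (GaloisField 2 ρ × ZMod 2) ≤ 4 * N := by
    rw [Fintype.card_prod, ← Nat.card_eq_fintype_card, GaloisField.card 2 _ r2, ZMod.card]
    omega
  obtain ⟨y, -, hy⟩ := exists_le_of_sum_le (s := (univ : Finset (GaloisField 2 ρ × ZMod 2)))
    univ_nonempty (f := fun _ => 2 ^ N)
    (g := fun y => 4 * N * (univ.filter fun x : V (Fin N) => (s x, par x) = y).card) (by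
      rw [← mul_sum, ← card_eq_sum_card_fiberwise fun _ _ => mem_univ _, sum_const, smul_eq_mul]
      exact Nat.mul_le_mul c1 (by simp))
  obtain ⟨P, L, Q, J, Z, a, b, c⟩ := hp_of_code hN hs (univ.filter fun x => (s x, par x) = y)
    (fun c hc c' hc' => by
      have := (mem_filter.1 hc).2.trans (mem_filter.1 hc').2.symm
      exact ⟨congrArg Prod.fst this, congrArg Prod.snd this⟩) hD
  generalize (univ.filter fun x : V (Fin N) => (s x, par x) = y).card = K at hy c
  have h2 : 2 ^ N = 2 * 2 ^ (N - 1) := by rw [← pow_succ', Nat.sub_add_cancel hN]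
  refine ⟨P, L, Q, J, Z, a, b, ?_, le_trans (Nat.le_mul_of_pos_left _ ?_) c⟩
  · calc 2 ^ (2 * N) = 2 ^ N * (2 * 2 ^ (N - 1)) := by rw [← h2, two_mul, pow_add]
      _ ≤ 4 * N * K * (2 * 2 ^ (N - 1)) := Nat.mul_le_mul_right _ hy
      _ = 8 * N * (K * 2 ^ (N - 1)) := by ring
      _ ≤ _ := Nat.mul_le_mul_left _ c
  · refine Nat.pos_of_ne_zero fun z => ?_
    rw [z, mul_zero] at hy
    exact absurd hy (not_le.2 (by positivity))

end Pool.Agent.Work.MP_ede3c6_co.Vol
end

-- merged part: Pool.Agent.Work.MP_ede3c6_co.V.B1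
section
/-! Two abstract tools: a second moment form of the marriage theorem and a balanced choice. -/

set_option autoImplicit false

namespace Pool.Agent.Work.MP_ede3c6_co.Vol

open Finset

theorem hall_cs {σ β : Type} [Fintype σ] [DecidableEq β] (A : σ → Finset β) (g : ℕ) (hg : 0 < g)
    (h1 : ∀ x, (A x).card = g) (h2 : ∀ x, ∑ y, (A x ∩ A y).card ≤ g ^ 2) :
    ∃ f : σ → β, Function.Injective f ∧ ∀ x, f x ∈ A x := by
  classical
  refine (all_card_le_biUnion_card_iff_exists_injective A).1 fun S => ?_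
  set U := S.biUnion A
  have sub : ∀ x ∈ S, A x ⊆ U := fun x hx => subset_biUnion_of_mem A hx
  have ind : ∀ B : Finset β, B ⊆ U → ∑ v ∈ U, (if v ∈ B then 1 else 0) = B.card := fun B hB => by
    rw [← card_filter, filter_mem_eq_inter, inter_eq_right.2 hB]
  have e1 : ∑ v ∈ U, (∑ x ∈ S, if v ∈ A x then 1 else 0) = S.card * g := by
    rw [sum_comm, sum_congr rfl fun x hx => (ind _ (sub x hx)).trans (h1 x)]
    simp
  have e2 : ∑ v ∈ U, (∑ x ∈ S, if v ∈ A x then 1 else 0) ^ 2 ≤ S.card * g ^ 2 := by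
    simp only [sq (∑ x ∈ S, _), sum_mul_sum]
    rw [sum_comm, ← smul_eq_mul]
    refine sum_le_card_nsmul _ _ _ fun x hx => le_trans ?_ (h2 x)
    rw [sum_comm]
    refine le_trans (sum_le_sum fun y _ => ?_) (sum_le_sum_of_subset (subset_univ S))
    rw [← ind _ (inter_subset_left.trans (sub x hx))]
    refine sum_le_sum fun v _ => ?_
    by_cases a : v ∈ A x <;> by_cases b : v ∈ A y <;> simp [a, b]
  have e3 := sq_sum_le_card_mul_sum_sq (s := U) (f := fun v => ∑ x ∈ S, if v ∈ A x then 1 else 0)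
  rw [e1] at e3
  rcases Nat.eq_zero_or_pos S.card with z | z
  · omega
  have e4 : S.card * (S.card * g ^ 2) ≤ U.card * (S.card * g ^ 2) := by
    calc S.card * (S.card * g ^ 2) = (S.card * g) ^ 2 := by ring
      _ ≤ _ := e3.trans (Nat.mul_le_mul_left _ e2)
  exact Nat.le_of_mul_le_mul_right e4 (by positivity)

theorem exp_half {y : ℝ} (h0 : 0 ≤ y) (h1 : y ≤ 1 / 2) : Real.exp y ≤ 1 + 2 * y := by
  refine (Real.exp_bound_div_one_sub_of_interval h0 (by linarith)).trans ?_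
  rw [div_le_iff₀ (by linarith)]
  nlinarith

theorem balanced {α β : Type} [Fintype α] [Fintype β] {D m μ E : ℕ} (hD : 0 < D) (hμ : 0 < μ)
    (hm : Fintype.card β ≤ 2 ^ m) (y : α → Fin D → β → ℕ) (h1 : ∀ i d v, y i d v ≤ 2 * μ)
    (h2 : ∀ v, ∑ i, ∑ d, y i d v ≤ D * E) :
    ∃ δ : α → Fin D, ∀ v, ∑ i, y i (δ i) v ≤ 4 * μ * m + 2 * E := by
  classical
  have μ0 : (0 : ℝ) < 4 * μ := by positivity
  have D0 : (0 : ℝ) < D := by positivity
  let f : α → Fin D → β → ℝ := fun i d v => y i d v / (4 * μ)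
  have f0 : ∀ i d v, 0 ≤ f i d v := fun i d v => by positivity
  have f1 : ∀ i d v, f i d v ≤ 1 / 2 := fun i d v => by
    have : (y i d v : ℝ) ≤ 2 * μ := by exact_mod_cast h1 i d v
    rw [div_le_iff₀ μ0]
    linarith
  have k1 : ∀ v, ∏ i, ∑ d, Real.exp (f i d v) ≤
      D ^ Fintype.card α * Real.exp (2 * E / (4 * μ)) := fun v => by
    calc ∏ i, ∑ d, Real.exp (f i d v) ≤ ∏ i, D * Real.exp (2 * (∑ d, f i d v) / D) := by
          refine prod_le_prod (fun i _ => sum_nonneg fun d _ => (Real.exp_pos _).le) fun i _ => ?_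
          calc ∑ d, Real.exp (f i d v) ≤ ∑ d, (1 + 2 * f i d v) :=
                sum_le_sum fun d _ => exp_half (f0 i d v) (f1 i d v)
            _ = D * (2 * (∑ d, f i d v) / D + 1) := by
                rw [sum_add_distrib, ← mul_sum]
                simp only [sum_const, card_univ, Fintype.card_fin, nsmul_eq_mul]
                field_simp
                ring
            _ ≤ _ := mul_le_mul_of_nonneg_left (Real.add_one_le_exp _) D0.le
      _ = D ^ Fintype.card α * Real.exp (2 * (∑ i, ∑ d, f i d v) / D) := by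
          rw [prod_mul_distrib, ← Real.exp_sum, ← sum_div, ← mul_sum]
          simp
      _ ≤ _ := by
          refine mul_le_mul_of_nonneg_left (Real.exp_le_exp.2 ?_) (by positivity)
          have : (∑ i, ∑ d, y i d v : ℝ) ≤ D * E := by exact_mod_cast h2 v
          simp only [f, ← sum_div]
          rw [div_le_div_iff₀ D0 μ0]
          field_simp
          linarith
  have : Nonempty (Fin D) := ⟨⟨0, hD⟩⟩
  obtain ⟨δ, -, hδ⟩ := exists_le_of_sum_le (s := (univ : Finset (α → Fin D))) univ_nonempty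
    (f := fun δ => ∑ v, ∏ i, Real.exp (f i (δ i) v))
    (g := fun _ => Fintype.card β * Real.exp (2 * E / (4 * μ))) (by
      rw [sum_comm]
      refine (sum_le_sum fun v _ => le_trans ?_ (k1 v)).trans_eq ?_
      · rw [prod_univ_sum, Fintype.piFinset_univ]
      simp
      ring)
  refine ⟨δ, fun v => ?_⟩
  have a1 := (single_le_sum (f := fun v => ∏ i, Real.exp (f i (δ i) v))
    (fun v _ => by positivity) (mem_univ v)).trans hδ
  have a2 : (Fintype.card β : ℝ) ≤ Real.exp m := by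
    calc (Fintype.card β : ℝ) ≤ 2 ^ m := by exact_mod_cast hm
      _ ≤ Real.exp 1 ^ m := pow_le_pow_left₀ two_pos.le (by
          have := Real.add_one_le_exp 1
          linarith) m
      _ = _ := by rw [← Real.exp_nat_mul, mul_one]
  have a3 := a1.trans (mul_le_mul_of_nonneg_right a2 (Real.exp_pos _).le)
  rw [← Real.exp_sum, ← Real.exp_add, Real.exp_le_exp] at a3
  simp only [f, ← sum_div] at a3
  rw [div_le_iff₀ μ0, add_mul, div_mul_cancel₀ _ μ0.ne'] at a3
  have : (∑ i, y i (δ i) v : ℝ) ≤ 4 * μ * m + 2 * E := by linarith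
  exact_mod_cast this

theorem cnt_le {α τ : Type} [Fintype α] [Fintype τ] {μ K : ℕ} (w c : α → τ → ℕ)
    (hw : ∀ i, ∑ t, w i t ≤ μ) (hc : ∀ i t, w i t ≠ 0 → c i t ≤ K)
    (h : ∀ i t j u, w i t ≠ 0 → w j u ≠ 0 → c i t ≠ 0 → c j u ≠ 0 → i = j) :
    ∑ i, ∑ t, w i t * c i t ≤ K * μ := by
  by_cases z : ∃ i t, w i t ≠ 0 ∧ c i t ≠ 0
  · obtain ⟨i, t, a, b⟩ := z
    rw [sum_eq_single i (fun j _ hj => sum_eq_zero fun u _ => by
      by_contra k
      rw [mul_eq_zero, not_or] at k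
      exact hj (h j u i t k.1 a k.2 b)) (by simp)]
    refine le_trans (sum_le_sum fun u _ => ?_) ((mul_sum _ _ K).symm.trans_le
      (Nat.mul_le_mul_left K (hw i)))
    by_cases q : w i u = 0
    · simp [q]
    · rw [mul_comm]
      exact Nat.mul_le_mul_right _ (hc i u q)
  · push Not at z
    refine (sum_eq_zero fun i _ => sum_eq_zero fun t _ => ?_).trans_le (Nat.zero_le _)
    by_cases q : w i t = 0
    · simp [q]
    · simp [z i t q]

end Pool.Agent.Work.MP_ede3c6_co.Vol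
end

-- merged part: Pool.Agent.Work.MP_ede3c6_co.V.B2
section
/-! Placing the leaves of the small spine vertices. -/

set_option autoImplicit false

namespace Pool.Agent.Work.MP_ede3c6_co.Vol

open Finset

theorem low {α τ β : Type} [Fintype α] [Fintype τ] [Fintype β] [DecidableEq β] {D m μ g : ℕ}
    (hμ : 0 < μ) (hm : Fintype.card β ≤ 2 ^ m) (hmg : m ≤ 3 * g) (hgD : g ≤ 3 * D)
    (hμg : 21 * μ ≤ g) (nb : β → Finset β) (n1 : ∀ v, (nb v).card = g)
    (n2 : ∀ u v, u ∈ nb v → v ∈ nb u) (n3 : ∀ u v, u ≠ v → (nb u ∩ nb v).card ≤ 2)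
    (w : α → τ → ℕ) (hw : ∀ i, ∑ t, w i t ≤ μ) (pos : α → τ → Fin D → β) (fx : α → τ → Prop)
    (H1 : ∀ i t d j u d', w i t ≠ 0 → w j u ≠ 0 → pos i t d = pos j u d' → i = j)
    (H3 : ∀ i t d d', w i t ≠ 0 → ¬ fx i t → pos i t d = pos i t d' → d = d')
    (H4 : ∀ i t d j u d' v, w i t ≠ 0 → w j u ≠ 0 → fx i t → fx j u → v ∈ nb (pos i t d) →
      v ∈ nb (pos j u d') → i = j) :
    ∃ (δ : α → Fin D) (Y : α → τ → ℕ → β), (∀ i t l, l < w i t → Y i t l ∈ nb (pos i t (δ i))) ∧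
      ∀ i t l j u l', l < w i t → l' < w j u → Y i t l = Y j u l' → i = j ∧ t = u ∧ l = l' := by
  classical
  let ν : β → β → ℕ := fun v p => if p = v then 0 else (nb v ∩ nb p).card
  have ν2 : ∀ v p, ν v p ≤ 2 := fun v p => by
    simp only [ν]
    split_ifs with h
    exacts [Nat.zero_le _, n3 _ _ (Ne.symm h)]
  have ν3 : ∀ v p, ν v p ≤ ∑ u ∈ nb v, if u ∈ nb p then 1 else 0 := fun v p => by
    rw [← card_filter, filter_mem_eq_inter]
    simp only [ν]
    split_ifs
    exacts [Nat.zero_le _, le_rfl]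
  have ne : ∀ {p : Fin D → Prop} [DecidablePred p], (univ.filter p).card ≠ 0 → ∃ d, p d :=
    fun h => (card_ne_zero.1 h).imp fun d hd => (mem_filter.1 hd).2
  have c1 : ∀ u, ∑ i, ∑ t, w i t * (univ.filter fun d => u ∈ nb (pos i t d)).card ≤
      (D + g) * μ := fun u => by
    have a1 := cnt_le (K := D) w
      (fun i t => if fx i t then (univ.filter fun d => u ∈ nb (pos i t d)).card else 0) hw
      (fun i t _ => by
        split_ifs
        exacts [(card_le_univ _).trans_eq (Fintype.card_fin D), Nat.zero_le _])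
      fun i t j t' a b c c' => by
        simp only [ne_eq, ite_eq_right_iff, Classical.not_imp] at c c'
        obtain ⟨d, hd⟩ := ne c.2
        obtain ⟨d', hd'⟩ := ne c'.2
        exact H4 i t d j t' d' u a b c.1 c'.1 hd hd'
    have a2 := fun p => cnt_le (K := 1) w
      (fun i t => if fx i t then 0 else (univ.filter fun d => pos i t d = p).card) hw
      (fun i t a => by
        split_ifs with h
        · exact Nat.zero_le _
        · exact card_le_one.2 fun d hd d' hd' =>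
            H3 i t d d' a h ((mem_filter.1 hd).2.trans (mem_filter.1 hd').2.symm))
      fun i t j t' a b c c' => by
        simp only [ne_eq, ite_eq_left_iff, Classical.not_imp] at c c'
        obtain ⟨d, hd⟩ := ne c.2
        obtain ⟨d', hd'⟩ := ne c'.2
        exact H1 i t d j t' d' a b (hd.trans hd'.symm)
    have a3 := sum_le_card_nsmul (nb u) _ _ fun p _ => a2 p
    rw [n1, smul_eq_mul, one_mul, sum_comm] at a3
    rw [add_mul]
    refine le_trans ?_ (add_le_add a1 a3)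
    rw [← sum_add_distrib]
    refine sum_le_sum fun i _ => ?_
    rw [sum_comm (s := nb u), ← sum_add_distrib]
    refine sum_le_sum fun t _ => ?_
    rw [← mul_sum, ← mul_add]
    refine Nat.mul_le_mul_left _ ?_
    split_ifs
    · exact Nat.le_add_right _ _
    · rw [zero_add, ← card_biUnion]
      · refine card_le_card fun d hd => mem_biUnion.2 ⟨_, n2 _ _ (mem_filter.1 hd).2, by simp⟩
      · intro p _ p' _ q
        exact disjoint_filter.2 fun d _ a b => q (a.symm.trans b)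
  obtain ⟨δ, hδ⟩ := balanced (D := D) (E := 4 * g * μ) (by omega) hμ hm
    (fun i d v => ∑ t, w i t * ν v (pos i t d))
    (fun i d v => (sum_le_sum fun t _ => Nat.mul_le_mul_left _ (ν2 v _)).trans (by
      rw [← sum_mul, mul_comm]
      exact Nat.mul_le_mul_left 2 (hw i)))
    fun v => by
      have a := sum_le_card_nsmul (nb v) _ _ fun u _ => c1 u
      rw [n1, smul_eq_mul, sum_comm] at a
      refine le_trans (sum_le_sum fun i _ => ?_) (a.trans ?_)
      · rw [sum_comm, sum_comm (s := nb v)]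
        refine sum_le_sum fun t _ => ?_
        rw [← mul_sum, ← mul_sum]
        refine Nat.mul_le_mul_left _ ?_
        simp only [card_filter]
        rw [sum_comm (s := nb v)]
        exact sum_le_sum fun d _ => ν3 _ _
      · calc g * ((D + g) * μ) ≤ g * ((4 * D) * μ) := by gcongr; omega
          _ = _ := by ring
  obtain ⟨f, f1, f2⟩ := hall_cs (σ := Σ p : α × τ, Fin (w p.1 p.2))
    (fun x => nb (pos x.1.1 x.1.2 (δ x.1.1))) g (by omega) (fun _ => n1 _) fun x => by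
      generalize pos x.1.1 x.1.2 (δ x.1.1) = v
      have a := cnt_le (K := g) w (fun i t => if pos i t (δ i) = v then g else 0) hw
        (fun i t _ => by split_ifs <;> omega) fun i t j t' a b c c' => by
          simp only [ne_eq, ite_eq_right_iff, Classical.not_imp] at c c'
          exact H1 i t _ j t' _ a b (c.1.trans c'.1.symm)
      have b := hδ v
      rw [Fintype.sum_sigma, Fintype.sum_prod_type]
      simp only [sum_const, card_univ, Fintype.card_fin, smul_eq_mul]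
      refine le_trans (sum_le_sum fun i _ => ?_)
        ((sum_add_distrib.trans_le (add_le_add a b)).trans ?_)
      · rw [← sum_add_distrib]
        refine sum_le_sum fun t _ => ?_
        rw [← mul_add]
        refine Nat.mul_le_mul_left _ ?_
        simp only [ν]
        split_ifs with h
        · rw [h, inter_self, n1, add_zero]
        · rw [zero_add]
      · calc g * μ + (4 * μ * m + 2 * (4 * g * μ)) ≤ g * μ + (4 * μ * (3 * g) + 2 * (4 * g * μ)) := by
              gcongr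
          _ = g * (21 * μ) := by ring
          _ ≤ g ^ 2 := by rw [sq]; gcongr
  refine ⟨δ, fun i t l => if h : l < w i t then f ⟨(i, t), ⟨l, h⟩⟩ else pos i t (δ i),
    fun i t l h => ?_, fun i t l j u l' h h' q => ?_⟩
  · simp only [h, dif_pos]
    exact f2 ⟨(i, t), ⟨l, h⟩⟩
  · simp only [h, h', dif_pos] at q
    have := f1 q
    exact ⟨congrArg (·.1.1) this, congrArg (·.1.2) this, congrArg (fun x => (x.2 : ℕ)) this⟩

end Pool.Agent.Work.MP_ede3c6_co.Vol
end

-- merged part: Pool.Agent.Work.MP_ede3c6_co.V.B3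
section
/-! The detours together with their leaves. -/

set_option autoImplicit false

namespace Pool.Agent.Work.MP_ede3c6_co.Vol

open Finset

variable {ι : Type} [Fintype ι] [DecidableEq ι]

/-- neighbours in a set of directions -/
def nbJ (J : Finset ι) (v : V ι) : Finset (V ι) := J.image fun c => v + e c

theorem nbJ_card (J : Finset ι) (v : V ι) : (nbJ J v).card = J.card :=
  card_image_of_injective _ fun _ _ h => e_inj (add_left_cancel h)

theorem nbJ_symm (J : Finset ι) (u v : V ι) (h : u ∈ nbJ J v) : v ∈ nbJ J u := by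
  obtain ⟨c, hc, rfl⟩ := mem_image.1 h
  exact mem_image.2 ⟨c, hc, by rw [add_assoc, vv, add_zero]⟩

theorem nbJ_hd {J : Finset ι} {u v : V ι} (h : u ∈ nbJ J v) : hammingDist v u = 1 := by
  obtain ⟨c, -, rfl⟩ := mem_image.1 h
  exact hd_e _ _

theorem nbJ_two {J : Finset ι} {u v x : V ι} (h : x ∈ nbJ J u) (h' : x ∈ nbJ J v) :
    hammingDist u v ≤ 2 := by
  have := hammingDist_triangle u x v
  rw [nbJ_hd h, hammingDist_comm x, nbJ_hd h'] at this
  exact this

theorem nbJ_inter (J : Finset ι) (u v : V ι) (h : u ≠ v) : (nbJ J u ∩ nbJ J v).card ≤ 2 := by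
  rcases (nbJ J u ∩ nbJ J v).eq_empty_or_nonempty with z | ⟨x, hx⟩
  · simp [z]
  refine le_trans ?_ (nbJ_two (mem_inter.1 hx).1 (mem_inter.1 hx).2)
  refine (card_le_card (t := (univ.filter fun c => u c ≠ v c).image fun c => u + e c)
    fun y hy => ?_).trans card_image_le
  obtain ⟨a, -, rfl⟩ := mem_image.1 (mem_inter.1 hy).1
  obtain ⟨b, -, k⟩ := mem_image.1 (mem_inter.1 hy).2
  refine mem_image.2 ⟨a, mem_filter.2 ⟨mem_univ _, fun q => ?_⟩, rfl⟩
  have ab : a ≠ b := fun z => h (add_right_cancel (z ▸ k)).symm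
  have := congrFun k a
  simp [e_apply, ab, q] at this

/-- detours `X` with leaves `Y` -/
structure Det (P : ℕ → V ι) (L : ℕ) (ℓ : ℕ → ℕ) (w : ℕ → ℕ → ℕ) (X : ℕ → ℕ → V ι)
    (Y : ℕ → ℕ → ℕ → V ι) : Prop where
  x1 : ∀ q, ℓ q ≠ 0 → X q 1 = P q ∧ X q (2 * ℓ q) = P (q + 1)
  xs : ∀ q u, 1 ≤ u → u < 2 * ℓ q → hammingDist (X q u) (X q (u + 1)) = 1
  xi : ∀ q u q' u', 1 ≤ u → u ≤ 2 * ℓ q → 1 ≤ u' → u' ≤ 2 * ℓ q' → X q u = X q' u' →
    q = q' ∧ u = u'
  xp : ∀ q u j, 1 ≤ u → u ≤ 2 * ℓ q → j < L → X q u = P j → j = q ∨ j = q + 1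
  y1 : ∀ q u l, 1 ≤ u → u ≤ 2 * ℓ q → l < w q u → hammingDist (X q u) (Y q u l) = 1
  yi : ∀ q u l q' u' l', 1 ≤ u → u ≤ 2 * ℓ q → l < w q u → 1 ≤ u' → u' ≤ 2 * ℓ q' →
    l' < w q' u' → Y q u l = Y q' u' l' → q = q' ∧ u = u' ∧ l = l'
  yx : ∀ q u l q' u', 1 ≤ u → u ≤ 2 * ℓ q → l < w q u → 1 ≤ u' → u' ≤ 2 * ℓ q' →
    Y q u l ≠ X q' u'
  yp : ∀ q u l j, 1 ≤ u → u ≤ 2 * ℓ q → l < w q u → j < L → Y q u l ≠ P j

theorem exists_det {P : ℕ → V ι} {L : ℕ} {Q : Finset ℕ} {J : Finset ι} {Z : ℕ → ℕ → V ι}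
    {D μ : ℕ} (H : HP P L Q J Z D μ) (hμ : 0 < μ) (hm : Fintype.card ι ≤ 3 * J.card)
    (hD : J.card ≤ 3 * D) (hg : 21 * μ ≤ J.card) (ℓ : ℕ → ℕ) (w : ℕ → ℕ → ℕ)
    (hℓ : ∀ q, ℓ q ≠ 0 → q ∈ Q ∧ 2 * ℓ q ≤ μ ∧ ∑ u ∈ range (2 * ℓ q + 1), w q u ≤ μ) :
    ∃ X Y, Det P L ℓ w X Y := by
  classical
  let β : ℕ → ℕ → ℕ := fun q u => if u ≤ ℓ q then 0 else 1
  let τ : ℕ → ℕ → ℕ := fun q u => if u ≤ ℓ q then u - 1 else 2 * ℓ q - u
  let w' : Fin L → Fin (μ + 1) → ℕ := fun q u => if 1 ≤ (u : ℕ) ∧ u ≤ 2 * ℓ q then w q u else 0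
  have b1 : ∀ q u, β q u ≤ 1 := fun q u => by
    simp only [β]
    split_ifs <;> omega
  have vq : ∀ q u, 1 ≤ u → u ≤ 2 * ℓ q → q ∈ Q ∧ τ q u < μ ∧ q + 4 ≤ L ∧ u < μ + 1 :=
    fun q u a b => by
      obtain ⟨c1, c2, -⟩ := hℓ q (by omega)
      refine ⟨c1, ?_, H.lt q c1, by omega⟩
      simp only [τ]
      split_ifs <;> omega
  have vw : ∀ q u, w' q u ≠ 0 → (q : ℕ) ∈ Q ∧ τ q u < μ := fun q u h => by
    simp only [w', ne_eq, ite_eq_right_iff, Classical.not_imp] at h
    exact ⟨(vq _ _ h.1.1 h.1.2).1, (vq _ _ h.1.1 h.1.2).2.1⟩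
  have inj : ∀ i j, i < L → j < L → P i = P j → i = j := fun i j a b h => by
    rcases lt_trichotomy i j with z | z | z
    · have := H.spr i j z b
      rw [h, hammingDist_self] at this
      omega
    · exact z
    · have := H.spr j i z a
      rw [h, hammingDist_self] at this
      omega
  obtain ⟨δ, Y, y1, y2⟩ := low (D := D) (m := Fintype.card ι) hμ (by simp) hm hD hg (nbJ J)
    (nbJ_card J) (nbJ_symm J) (nbJ_inter J) w'
    (fun q => by
      by_cases z : ℓ q = 0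
      · refine (sum_eq_zero fun u _ => if_neg ?_).trans_le (Nat.zero_le _)
        omega
      · refine le_trans ?_ (hℓ q z).2.2
        rw [Fin.sum_univ_eq_sum_range (fun u => if 1 ≤ u ∧ u ≤ 2 * ℓ q then w q u else 0),
          ← sum_filter]
        exact sum_le_sum_of_subset fun u hu => mem_range.2 (by
          have := (mem_filter.1 hu).2
          omega))
    (fun q u d => P (q + β q u) + Z d (τ q u)) (fun q u => τ q u = 0)
    (fun q u d q' u' d' a a' h => Fin.ext (H.sA _ (vw _ _ a).1 _ (vw _ _ a').1 _ (b1 _ _) _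
      (b1 _ _) _ d.2 _ d'.2 _ (vw _ _ a).2.le _ (vw _ _ a').2.le h).1)
    (fun q u d d' a f h => Fin.ext (H.zd _ d.2 _ d'.2 _ (vw _ _ a).2.le f (add_left_cancel h)))
    fun q u d q' u' d' v a a' f f' h h' => by
      have k := nbJ_two h h'
      rw [f, f', H.z0, H.z0, add_zero, add_zero] at k
      have p := (vw _ _ a).1
      have p' := (vw _ _ a').1
      have r := b1 q u
      have r' := b1 q' u'
      have t := H.lt _ p
      have t' := H.lt _ p'
      refine Fin.ext ?_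
      rcases lt_trichotomy (q : ℕ) q' with z | z | z
      · have := H.gap _ p _ p' z
        have := H.spr (q + β q u) (q' + β q' u') (by omega) (by omega)
        omega
      · exact z
      · have := H.gap _ p' _ p z
        have := H.spr (q' + β q' u') (q + β q u) (by omega) (by omega)
        rw [hammingDist_comm] at this
        omega
  let δ' : ℕ → ℕ := fun q => if h : q < L then δ ⟨q, h⟩ else 0
  have d1 : ∀ q, δ' q < D := fun q => by
    simp only [δ']
    split_ifs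
    exacts [Fin.is_lt _, by omega]
  let Y' : ℕ → ℕ → ℕ → V ι := fun q u l =>
    if h : q < L ∧ u < μ + 1 then Y ⟨q, h.1⟩ ⟨u, h.2⟩ l else 0
  have yy : ∀ q u l, 1 ≤ u → u ≤ 2 * ℓ q → l < w q u → ∃ (h : q < L) (h' : u < μ + 1),
      Y' q u l = Y ⟨q, h⟩ ⟨u, h'⟩ l ∧ l < w' ⟨q, h⟩ ⟨u, h'⟩ := fun q u l a b c => by
    obtain ⟨-, -, k1, k2⟩ := vq q u a b
    exact ⟨by omega, k2, dif_pos ⟨by omega, k2⟩, by simpa only [w', a, b, and_self, if_true]⟩
  have yn : ∀ q u l, 1 ≤ u → u ≤ 2 * ℓ q → l < w q u →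
      ∃ c ∈ J, Y' q u l = P (q + β q u) + Z (δ' q) (τ q u) + e c := fun q u l a b c => by
    obtain ⟨h, h', k1, k2⟩ := yy q u l a b c
    obtain ⟨c, hc, k⟩ := mem_image.1 (y1 _ _ _ k2)
    exact ⟨c, hc, by rw [k1, ← k]; simp only [δ', h, dif_pos]⟩
  refine ⟨fun q u => P (q + β q u) + Z (δ' q) (τ q u), Y', fun q h => ⟨?_, ?_⟩,
    fun q u a b => ?_, fun q u q' u' a b a' b' h => ?_, fun q u j a b c h => ?_,
    fun q u l a b c => ?_, fun q u l q' u' l' a b c a' b' c' h => ?_,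
    fun q u l q' u' a b c a' b' => ?_, fun q u l j a b c hj => ?_⟩
  · simp only [β, τ, if_pos (show 1 ≤ ℓ q by omega), Nat.sub_self, H.z0, add_zero]
  · simp only [β, τ, if_neg (show ¬ 2 * ℓ q ≤ ℓ q by omega), Nat.sub_self, H.z0, add_zero]
  · obtain ⟨-, k1, k2, -⟩ := vq q u a b.le
    obtain ⟨-, k3, -⟩ := vq q (u + 1) (by omega) b
    simp only [β, τ] at k1 k3 ⊢
    rcases lt_trichotomy u (ℓ q) with z | z | z
    · rw [if_pos z.le] at k1
      rw [if_pos z.le, if_pos z.le, if_pos (show u + 1 ≤ ℓ q from z),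
        if_pos (show u + 1 ≤ ℓ q from z), hd_add', show u + 1 - 1 = u - 1 + 1 by omega]
      exact H.zs _ (d1 q) _ k1
    · rw [if_pos z.le, if_pos z.le, if_neg (by omega), if_neg (by omega),
        show 2 * ℓ q - (u + 1) = u - 1 by omega, hd_add]
      exact H.step q (by omega)
    · rw [if_neg (by omega)] at k3
      rw [if_neg z.not_ge, if_neg z.not_ge, if_neg (by omega), if_neg (by omega), hd_add',
        show 2 * ℓ q - u = 2 * ℓ q - (u + 1) + 1 by omega, hammingDist_comm]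
      exact H.zs _ (d1 q) _ k3
  · obtain ⟨p, r, -⟩ := vq q u a b
    obtain ⟨p', r', -⟩ := vq q' u' a' b'
    obtain ⟨rfl, k⟩ := H.sA _ p _ p' _ (b1 _ _) _ (b1 _ _) _ (d1 _) _ (d1 _) _ r.le _ r'.le h
    simp only [k, add_right_inj] at h
    have := H.zt _ (d1 _) _ r.le _ r'.le h
    simp only [β, τ] at k this
    refine ⟨rfl, ?_⟩
    split_ifs at k this <;> omega
  · obtain ⟨p, r, t, -⟩ := vq q u a b
    have k := H.sD _ p _ (b1 _ _) _ (d1 _) _ r.le _ c h
    have := b1 q u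
    simp only [k, H.z0, add_zero] at h
    have := inj _ _ (by omega) c h
    omega
  · obtain ⟨c, -, k⟩ := yn q u l a b c
    rw [k, hd_e]
  · obtain ⟨h1, h2, k1, k2⟩ := yy q u l a b c
    obtain ⟨h1', h2', k1', k2'⟩ := yy q' u' l' a' b' c'
    rw [k1, k1'] at h
    simpa using y2 _ _ _ _ _ _ k2 k2' h
  · obtain ⟨c, hc, k⟩ := yn q u l a b c
    rw [k]
    exact H.sB _ (vq q u a b).1 _ (vq q' u' a' b').1 _ (b1 _ _) _ (b1 _ _) _ _ _ _ c hc
  · obtain ⟨c, hc, k⟩ := yn q u l a b c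
    rw [k]
    exact H.sC _ (vq q u a b).1 _ (b1 _ _) _ _ c hc j hj

end Pool.Agent.Work.MP_ede3c6_co.Vol
end

-- merged part: Pool.Agent.Work.MP_ede3c6_co.V.C2
section
/-! Assembly of the embedding. -/

set_option autoImplicit false

namespace Pool.Agent.Work.MP_ede3c6_co.Vol

open Finset

theorem dat_addr {κ : Type} [Fintype κ] {k : ℕ} {a σ ℓ : ℕ → ℕ} (h0 : σ 0 = 0)
    (hs : ∀ q, σ (q + 1) = σ q + 1 + 2 * ℓ q) (E : ℕ → ℕ → V κ) (Y : ℕ → ℕ → ℕ → V κ)
    (h1 : ∀ q u q' u', u ≤ 2 * ℓ q → σ q + u < k → u' ≤ 2 * ℓ q' → σ q' + u' < k →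
      E q u = E q' u' → q = q' ∧ u = u')
    (h2 : ∀ q u q' u' l, u ≤ 2 * ℓ q → σ q + u < k → u' ≤ 2 * ℓ q' → σ q' + u' < k →
      l < a (σ q' + u') → E q u ≠ Y q' u' l)
    (h3 : ∀ q u l q' u' l', u ≤ 2 * ℓ q → σ q + u < k → l < a (σ q + u) → u' ≤ 2 * ℓ q' →
      σ q' + u' < k → l' < a (σ q' + u') → Y q u l = Y q' u' l' → q = q' ∧ u = u' ∧ l = l')
    (h4 : ∀ q u, u < 2 * ℓ q → hammingDist (E q u) (E q (u + 1)) = 1)
    (h5 : ∀ q, σ (q + 1) < k → hammingDist (E q (2 * ℓ q)) (E (q + 1) 0) = 1)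
    (h6 : ∀ q u l, u ≤ 2 * ℓ q → σ q + u < k → l < a (σ q + u) →
      hammingDist (E q u) (Y q u l) = 1) : ∃ (x : ℕ → V κ) (y : ℕ → ℕ → V κ), Dat k a x y := by
  let A : ℕ → ℕ × ℕ := fun i => i.rec (0, 0) fun _ p =>
    if p.2 < 2 * ℓ p.1 then (p.1, p.2 + 1) else (p.1 + 1, 0)
  have A1 : ∀ i, A (i + 1) =
    if (A i).2 < 2 * ℓ (A i).1 then ((A i).1, (A i).2 + 1) else ((A i).1 + 1, 0) := fun _ => rfl
  have A2 : ∀ i, (A i).2 ≤ 2 * ℓ (A i).1 ∧ σ (A i).1 + (A i).2 = i := fun i => by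
    induction i with
    | zero => exact ⟨Nat.zero_le _, h0⟩
    | succ i ih =>
      rw [A1]
      split_ifs
      · dsimp only
        omega
      · dsimp only
        rw [hs]
        omega
  refine ⟨fun i => E (A i).1 (A i).2, fun i => Y (A i).1 (A i).2, fun i j hi hj h => ?_,
    fun i j l hi hj hl => ?_, fun i j l l' hi hj hl hl' h => ?_, fun i hi => ?_,
    fun i l hi hl => ?_⟩
  · obtain ⟨p, q⟩ := h1 _ _ _ _ (A2 i).1 (by rwa [(A2 i).2]) (A2 j).1 (by rwa [(A2 j).2]) h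
    rw [← (A2 i).2, p, q, (A2 j).2]
  · exact h2 _ _ _ _ _ (A2 i).1 (by rwa [(A2 i).2]) (A2 j).1 (by rwa [(A2 j).2])
      (by rwa [(A2 j).2])
  · obtain ⟨p, q, r⟩ := h3 _ _ _ _ _ _ (A2 i).1 (by rwa [(A2 i).2]) (by rwa [(A2 i).2]) (A2 j).1
      (by rwa [(A2 j).2]) (by rwa [(A2 j).2]) h
    exact ⟨by rw [← (A2 i).2, p, q, (A2 j).2], r⟩
  · obtain ⟨p, q⟩ := A2 i
    simp only [A1]
    split_ifs with z
    · exact h4 _ _ z
    · have := h5 (A i).1 (by rw [hs]; omega)
      rwa [show 2 * ℓ (A i).1 = (A i).2 by omega] at this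
  · exact h6 _ _ _ (A2 i).1 (by rwa [(A2 i).2]) (by rwa [(A2 i).2])

variable {ι ρ : Type} [Fintype ι] [DecidableEq ι] [Fintype ρ] [DecidableEq ρ]

omit [Fintype ι] [Fintype ρ] in
theorem lo_leaf {s : ρ} {x y : V ι} {c : ι ⊕ ρ}
    (h : (Sum.elim x (0 : V ρ) : V (ι ⊕ ρ)) + e c = Sum.elim y (e s)) : c = Sum.inr s ∧ x = y := by
  obtain rfl : c = Sum.inr s := by
    by_contra k
    have := congrFun h (Sum.inr s)
    simp [e_apply, Ne.symm k] at this
  rw [e_inr, elim_add, add_zero] at h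
  exact ⟨rfl, (elim_inj h).1⟩

omit [Fintype ι] [DecidableEq ι] [Fintype ρ] in
theorem lo_hi (s : ρ) (x y : V ι) : (Sum.elim x (0 : V ρ) : V (ι ⊕ ρ)) ≠ Sum.elim y (e s) :=
  fun h => by simpa [e_apply] using congrFun h (Sum.inr s)

theorem assemble (s : ρ) {P : ℕ → V ι} {L : ℕ} {Q : Finset ℕ} {J : Finset ι} {Z : ℕ → ℕ → V ι}
    {D μ : ℕ} (H : HP P L Q J Z D μ) (hμ : 0 < μ) (hm : Fintype.card ι ≤ 3 * J.card)
    (hD : J.card ≤ 3 * D) (hg : 21 * μ ≤ J.card) {k : ℕ} {a : ℕ → ℕ}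
    (hR : Run k a (Fintype.card (ι ⊕ ρ))) (hV : k + ∑ i ∈ range k, a i ≤ (μ + 1) * Q.card) :
    ∃ (x : ℕ → V (ι ⊕ ρ)) (y : ℕ → ℕ → V (ι ⊕ ρ)), Dat k a x y := by
  classical
  let b : ℕ → ℕ := fun i => if i < k then a i else 0
  have ba : ∀ i < k, b i = a i := fun i hi => if_pos hi
  have bl : ∀ {i l}, i < k → l < a i → l < b i := fun hi hl => hl.trans_eq (ba _ hi).symm
  obtain ⟨σ, ℓ, s0, s1, s2, s3⟩ := layout b Q μ L k H.lt H.gap (by
    refine le_trans (le_of_eq ?_) hV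
    simp only [vol, sum_add_distrib, sum_const, card_range, smul_eq_mul, mul_one, zero_add]
    rw [add_comm, sum_congr rfl fun i hi => ba i (mem_range.1 hi)])
  have mono : Monotone σ := monotone_nat_of_le_succ fun q => by
    rw [s1]
    omega
  obtain ⟨K, K1, K2⟩ : ∃ K, K ≤ L ∧ ∀ q, q < K ↔ σ q < k := by
    have ex : ∃ q, k ≤ σ q := ⟨L, s2⟩
    exact ⟨Nat.find ex, Nat.find_le s2, fun q => ⟨fun h => not_le.1 (Nat.find_min ex h),
      fun h => not_le.1 fun z => h.not_ge ((Nat.find_spec ex).trans (mono z))⟩⟩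
  obtain ⟨X, Y, T⟩ := exists_det H hμ hm hD hg ℓ (fun q u => b (σ q + u)) fun q hq => by
    obtain ⟨p, r⟩ := s3 q hq
    have := vol_ge b (σ q) (2 * ℓ q + 2)
    refine ⟨p, by omega, le_trans ?_ r⟩
    rw [vol, sum_range_succ (n := 2 * ℓ q + 1)]
    exact le_add_right (sum_le_sum fun _ _ => Nat.le_succ _)
  let sp : ℕ → Prop := fun q => ℓ q ≠ 0 ∨ (0 < q ∧ ℓ (q - 1) ≠ 0)
  have sm : ∀ q, sp q → b (σ q) ≤ μ := fun q hq => by
    have key : ∀ q j, ℓ q ≠ 0 → j < 2 * ℓ q + 2 → b (σ q + j) ≤ μ := fun q j h hj =>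
      (Nat.le_succ _).trans ((single_le_sum (f := fun j => b (σ q + j) + 1)
        (fun _ _ => Nat.zero_le _) (mem_range.2 hj)).trans (s3 q h).2)
    rcases hq with h | ⟨h, h'⟩
    · exact key q 0 h (by omega)
    · have := s1 (q - 1)
      rw [Nat.sub_add_cancel h] at this
      rw [show σ q = σ (q - 1) + (2 * ℓ (q - 1) + 1) by omega]
      exact key _ _ h' (by omega)
  obtain ⟨y, G, gy⟩ := dat_path (k := K) (a := fun q => b (σ q))
    (x := fun q => (Sum.elim (P q) (0 : V ρ) : V (ι ⊕ ρ)))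
    (fun q => if sp q then {Sum.inr s} else ∅)
    (fun q => ¬ sp q ∧ use k a (Fintype.card (ι ⊕ ρ)) (σ q) ≠ 0)
    (fun i hi => by rw [hd_sum, hammingDist_self, H.step i (by omega)])
    (fun i j hij hj => by rw [hd_sum, hammingDist_self]; exact H.spr i j hij (by omega))
    fun q hq => by
      by_cases z : sp q
      · have c1 := sm q z
        have c2 := card_le_univ J
        simp only [z, if_true, card_singleton, deg, Fintype.card_sum]
        split_ifs <;> omega
      · have c1 := (K2 q).1 hq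
        have c2 := fit_of_run hR c1
        have c3 : ℓ q = 0 := by_contra fun r => z (Or.inl r)
        have c4 : deg K (fun q => b (σ q)) q = deg k a (σ q) := by
          have d1 : 0 < q ↔ 0 < σ q := by
            cases q with
            | zero => simp [s0]
            | succ q => rw [s1]; omega
          have d2 : q + 1 < K ↔ σ q + 1 < k := by rw [K2, s1, c3]
          simp only [deg, ba _ c1, d1, d2]
        simp only [z, if_false, card_empty, not_false_eq_true, true_and, c4, add_zero]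
        refine le_trans (Nat.add_le_add_right (Nat.add_le_add_left ?_ _) _) c2
        split_ifs with r
        · obtain ⟨p, rfl⟩ : ∃ p, q = p + 2 := ⟨q - 2, by omega⟩
          have d1 : ℓ p = 0 := by_contra fun t => r.2.1 (Or.inl t)
          have d2 : ℓ (p + 1) = 0 := by_contra fun t => z (Or.inr ⟨by omega, t⟩)
          have d3 : σ (p + 2) = σ p + 2 := by rw [s1, s1, d1, d2]
          rw [back, d3, if_pos (by omega)]
          exact Nat.pos_of_ne_zero r.2.2
        · exact Nat.zero_le _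
  have kq : ∀ q u, σ q + u < k → q < K := fun q u h => (K2 q).2 (by omega)
  have hs : hammingDist (0 : V ρ) (e s) = 1 := by simpa using hd_e 0 s
  have gl : ∀ q l x, σ q + 0 < k → l < a (σ q + 0) → y q l = Sum.elim x (e s) →
      ¬ sp q ∧ x = P q := fun q l x h hl r => by
    obtain ⟨c, c1, c2⟩ := gy q l (kq q 0 h) (bl h hl)
    obtain ⟨rfl, c3⟩ := lo_leaf (c2.symm.trans r)
    exact ⟨fun z => c1 (by simp [z]), c3.symm⟩
  refine dat_addr s0 s1 (fun q u => if u = 0 then Sum.elim (P q) 0 else Sum.elim (X q u) (e s))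
    (fun q u l => if u = 0 then y q l else Sum.elim (Y q u l) (e s))
    (fun q u q' u' a1 a2 b1 b2 h => ?_) (fun q u q' u' l a1 a2 b1 b2 b3 h => ?_)
    (fun q u l q' u' l' a1 a2 a3 b1 b2 b3 h => ?_) (fun q u a1 => ?_) (fun q a1 => ?_)
    fun q u l a1 a2 a3 => ?_
  · split_ifs at h with p r r
    · exact ⟨G.xx _ _ (kq _ _ a2) (kq _ _ b2) h, by omega⟩
    · exact absurd h (lo_hi _ _ _)
    · exact absurd h.symm (lo_hi _ _ _)
    · exact T.xi _ _ _ _ (by omega) a1 (by omega) b1 (elim_inj h).1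
  · split_ifs at h with p r r
    · subst r
      exact G.xy _ _ _ (kq _ _ a2) (kq _ _ b2) (bl b2 b3) h
    · exact lo_hi _ _ _ h
    · subst r
      obtain ⟨c1, c2⟩ := gl _ _ _ b2 b3 h.symm
      have := kq _ _ b2
      rcases T.xp _ _ _ (by omega) a1 (by omega) c2 with rfl | rfl
      · exact c1 (Or.inl (by omega))
      · exact c1 (Or.inr ⟨by omega, by rw [Nat.add_sub_cancel]; omega⟩)
    · exact T.yx _ _ _ _ _ (by omega) b1 (bl b2 b3) (by omega) a1 (elim_inj h).1.symm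
  · split_ifs at h with p r r
    · subst p r
      have := G.yy _ _ _ _ (kq _ _ a2) (kq _ _ b2) (bl a2 a3) (bl b2 b3) h
      exact ⟨this.1, rfl, this.2⟩
    · subst p
      have := kq _ _ a2
      exact absurd (gl _ _ _ a2 a3 h).2 (T.yp _ _ _ _ (by omega) b1 (bl b2 b3) (by omega))
    · subst r
      have := kq _ _ b2
      exact absurd (gl _ _ _ b2 b3 h.symm).2
        (T.yp _ _ _ _ (by omega) a1 (bl a2 a3) (by omega))
    · exact T.yi _ _ _ _ _ _ (by omega) a1 (bl a2 a3) (by omega) b1 (bl b2 b3)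
        (elim_inj h).1
  · rw [if_neg (Nat.succ_ne_zero u)]
    split_ifs with p
    · rw [p, hd_sum, zero_add, (T.x1 q (by omega)).1, hammingDist_self, hs]
    · rw [hd_sum, hammingDist_self, T.xs _ _ (by omega) a1]
  · rw [if_pos rfl]
    split_ifs with p
    · exact G.st q ((K2 _).2 a1)
    · rw [hd_sum, (T.x1 q (by omega)).2, hammingDist_self, hammingDist_comm, hs]
  · split_ifs with p
    · subst p
      exact G.lf q l (kq _ _ a2) (bl a2 a3)
    · rw [hd_sum, hammingDist_self, T.y1 _ _ _ (by omega) a1 (bl a2 a3)]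

theorem contained_of_vol {k : ℕ} {a : ℕ → ℕ} {n : ℕ} (hn : 400 ≤ n)
    (hV : 2 ^ 131 * (k + ∑ i ∈ range k, a i) ≤ 2 ^ n) (hR : Run k a n) :
    (cat k a).IsContained (cube n) := by
  obtain ⟨N, r, rfl, r1, N1⟩ : ∃ N r, n = 2 * N + 120 + (r + 1) ∧ r ≤ 1 ∧ 120 ≤ N :=
    ⟨(n - 121) / 2, (n - 121) % 2, by omega, by omega, by omega⟩
  obtain ⟨P, L, Q, J, Z, H, j1, q1, q2⟩ := exists_hp (N := N) (D := N / 2) (μ := N / 21)
    (by omega) (by omega)
  have c1 : Fintype.card ((Fin N ⊕ Fin N) ⊕ Col × Fin 3) = 2 * N + 120 := by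
    simp only [Fintype.card_sum, Fintype.card_prod, Fintype.card_fin, ZMod.card]
    omega
  have c2 : Fintype.card (((Fin N ⊕ Fin N) ⊕ Col × Fin 3) ⊕ Fin (r + 1)) =
      2 * N + 120 + (r + 1) := by rw [Fintype.card_sum, c1, Fintype.card_fin]
  have q3 : 2 ^ 2 ≤ 2 ^ (N - 1) := Nat.pow_le_pow_right two_pos (by omega)
  obtain ⟨x, y, h⟩ := assemble (0 : Fin (r + 1)) H (by omega) (by omega) (by omega) (by omega)
    (k := k) (a := a) (by rwa [c2]) (by
      refine Nat.le_of_mul_le_mul_left (hV.trans ?_) (by positivity)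
      calc 2 ^ (2 * N + 120 + (r + 1)) ≤ 2 ^ (2 * N + 122) := Nat.pow_le_pow_right two_pos (by omega)
        _ = 2 ^ 122 * 2 ^ (2 * N) := by rw [pow_add, mul_comm]
        _ ≤ 2 ^ 122 * (8 * (21 * (N / 21 + 1)) * (2 * Q.card)) := by
            refine Nat.mul_le_mul_left _ (q1.trans ?_)
            gcongr <;> omega
        _ = 2 ^ 122 * 336 * ((N / 21 + 1) * Q.card) := by ring
        _ ≤ _ := Nat.mul_le_mul_right _ (by norm_num))
  exact h.contained c2

end Pool.Agent.Work.MP_ede3c6_co.Vol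
end
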